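import Pool.Agent.Helper34.HV.RDa
import Pool.Agent.Helper58.HV.RD2

/-! # HV, block RD2 -/

namespace Pool.Agent.Helper34.HV

open Pool.Agent.Helper69.HG Pool.Agent.Helper25.HV

theorem oneKinds : Pool.Agent.Helper58.HV.OneKinds := by
  intro D hD N k Q hk hQ
  obtain ⟨C, hC, h⟩ := oneKind hD hk hQ
  refine ⟨C, by linarith, fun T hT => ?_⟩
  obtain ⟨c, h1, h2, h3, h4⟩ := h T hT
  exact ⟨c, h1, h2, h3, h4⟩

/-- **Block RD2.** -/
theorem rd2 : RD2 := Pool.Agent.Helper58.HV.rd2_of oneKinds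

end Pool.Agent.Helper34.HV
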