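import Pool.Agent.Helper69.HG.Tot

/-! Centre-radius arithmetic for jets: exact integer centres, one radius (`ℓ¹`) for the four components. -/

open Finset

namespace Pool.Agent.Helper34.HV

open Pool.Agent.Helper69.HG

/-- centre and radius -/
structure CR where
  a : ℤ
  b : ℤ
  c : ℤ
  d : ℤ
  r : ℕ
  deriving DecidableEq

namespace CR

/-- `ℓ¹` norm of the centre -/
def n (X : CR) : ℕ := X.a.natAbs + X.b.natAbs + (X.c.natAbs + X.d.natAbs)

def zero : CR := ⟨0, 0, 0, 0, 0⟩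

def add (X Y : CR) : CR := ⟨X.a + Y.a, X.b + Y.b, X.c + Y.c, X.d + Y.d, X.r + Y.r⟩

def mul (X Y : CR) : CR :=
  ⟨X.a * Y.a, X.a * Y.b + X.b * Y.a, X.a * Y.c + X.b * Y.b + X.c * Y.a,
    X.a * Y.d + X.b * Y.c + X.c * Y.b + X.d * Y.a, X.n * Y.r + X.r * Y.n + X.r * Y.r⟩

def smul (q : ℤ) (X : CR) : CR := ⟨q * X.a, q * X.b, q * X.c, q * X.d, q.natAbs * X.r⟩

/-- division by a natural number -/
def scale (X : CR) (M : ℕ) : CR := ⟨X.a / M, X.b / M, X.c / M, X.d / M, X.r / M + 5⟩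

/-- constant part -/
def cst (X : CR) : CR := ⟨X.a, 0, 0, 0, X.r⟩

end CR

/-- `s x` is within the radius of the centre -/
def Rc (s : ℝ) (x : V4 ℝ) (X : CR) : Prop :=
  |s * x.a - X.a| + |s * x.b - X.b| + (|s * x.c - X.c| + |s * x.d - X.d|) ≤ X.r

lemma Rc_zero (s : ℝ) : Rc s ⟨0, 0, 0, 0⟩ CR.zero := by
  simp [Rc, CR.zero]

lemma Rc.add {s : ℝ} {x y : V4 ℝ} {X Y : CR} (h : Rc s x X) (h' : Rc s y Y) : Rc s (x.add y) (X.add Y) := by
  unfold Rc at *
  simp only [V4.add, CR.add]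
  push_cast
  have key : ∀ p q u v : ℝ, |s * (p + q) - (u + v)| ≤ |s * p - u| + |s * q - v| := by
    intro p q u v
    have e : s * (p + q) - (u + v) = (s * p - u) + (s * q - v) := by ring
    rw [e]
    exact abs_add_le _ _
  have k1 := key x.a y.a X.a Y.a
  have k2 := key x.b y.b X.b Y.b
  have k3 := key x.c y.c X.c Y.c
  have k4 := key x.d y.d X.d Y.d
  linarith

/-- norm of a real jet -/
def nr (x : V4 ℝ) : ℝ := |x.a| + |x.b| + (|x.c| + |x.d|)

lemma nr_nonneg (x : V4 ℝ) : 0 ≤ nr x := by unfold nr; positivity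

lemma nr_mul (x y : V4 ℝ) : nr (x.mul y) ≤ nr x * nr y := by
  unfold nr V4.mul
  simp only
  have h1 : |x.a * y.a| = |x.a| * |y.a| := abs_mul _ _
  have h2 : |x.a * y.b + x.b * y.a| ≤ |x.a| * |y.b| + |x.b| * |y.a| := by
    rw [← abs_mul, ← abs_mul]
    exact abs_add_le _ _
  have h3 : |x.a * y.c + x.b * y.b + x.c * y.a| ≤ |x.a| * |y.c| + |x.b| * |y.b| + |x.c| * |y.a| := by
    rw [← abs_mul, ← abs_mul, ← abs_mul]
    exact (abs_add_le _ _).trans (add_le_add (abs_add_le _ _) le_rfl)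
  have h4 : |x.a * y.d + x.b * y.c + x.c * y.b + x.d * y.a| ≤
      |x.a| * |y.d| + |x.b| * |y.c| + |x.c| * |y.b| + |x.d| * |y.a| := by
    rw [← abs_mul, ← abs_mul, ← abs_mul, ← abs_mul]
    exact (abs_add_le _ _).trans (add_le_add ((abs_add_le _ _).trans (add_le_add (abs_add_le _ _) le_rfl)) le_rfl)
  have p1 : 0 ≤ |x.b| * |y.d| := by positivity
  have p2 : 0 ≤ |x.c| * |y.c| := by positivity
  have p3 : 0 ≤ |x.c| * |y.d| := by positivity
  have p4 : 0 ≤ |x.d| * |y.b| := by positivity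
  have p5 : 0 ≤ |x.d| * |y.c| := by positivity
  have p6 : 0 ≤ |x.d| * |y.d| := by positivity
  rw [h1]
  nlinarith

lemma nr_add (x y : V4 ℝ) : nr (x.add y) ≤ nr x + nr y := by
  unfold nr V4.add
  simp only
  have h1 := abs_add_le x.a y.a
  have h2 := abs_add_le x.b y.b
  have h3 := abs_add_le x.c y.c
  have h4 := abs_add_le x.d y.d
  linarith

/-- the centre as a real jet -/
def rc (X : CR) : V4 ℝ := ⟨X.a, X.b, X.c, X.d⟩

lemma nr_rc (X : CR) : nr (rc X) = X.n := by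
  unfold nr rc CR.n
  simp only
  push_cast
  simp only [Nat.cast_natAbs, Int.cast_abs]

lemma Rc_iff {s : ℝ} {x : V4 ℝ} {X : CR} : Rc s x X ↔ nr ((x.smul s).add ((rc X).smul (-1))) ≤ X.r := by
  unfold Rc nr V4.add V4.smul rc
  simp only
  have e : ∀ u v : ℝ, s * u + -1 * v = s * u - v := by intro u v; ring
  simp only [e]

lemma Rc.mul {s t : ℝ} {x y : V4 ℝ} {X Y : CR} (h : Rc s x X) (h' : Rc t y Y) : Rc (s * t) (x.mul y) (X.mul Y) := by
  rw [Rc_iff] at h h' ⊢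
  set u := (x.smul s).add ((rc X).smul (-1)) with hu
  set v := (y.smul t).add ((rc Y).smul (-1)) with hv
  have e : ((x.mul y).smul (s * t)).add ((rc (X.mul Y)).smul (-1)) =
      (((rc X).mul v).add (u.mul (rc Y))).add (u.mul v) := by
    simp only [hu, hv, V4.mul, V4.add, V4.smul, rc, CR.mul]
    push_cast
    congr 1 <;> ring
  rw [e]
  have h1 := nr_mul (rc X) v
  have h2 := nr_mul u (rc Y)
  have h3 := nr_mul u v
  have h4 := nr_add (((rc X).mul v).add (u.mul (rc Y))) (u.mul v)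
  have h5 := nr_add ((rc X).mul v) (u.mul (rc Y))
  rw [nr_rc] at h1 h2
  have e2 : ((X.mul Y).r : ℝ) = X.n * Y.r + X.r * Y.n + X.r * Y.r := by
    simp only [CR.mul]
    push_cast
    ring
  rw [e2]
  have u0 := nr_nonneg u
  have v0 := nr_nonneg v
  have g1 : (X.n : ℝ) * nr v ≤ X.n * Y.r := mul_le_mul_of_nonneg_left h' (Nat.cast_nonneg _)
  have g2 : nr u * (Y.n : ℝ) ≤ X.r * Y.n := mul_le_mul_of_nonneg_right h (Nat.cast_nonneg _)
  have g3 : nr u * nr v ≤ X.r * Y.r := mul_le_mul h h' v0 (Nat.cast_nonneg _)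
  linarith

lemma Rc.smul {s : ℝ} {x : V4 ℝ} {X : CR} (q : ℤ) (h : Rc s x X) : Rc s (x.smul (q : ℝ)) (X.smul q) := by
  unfold Rc at *
  simp only [V4.smul, CR.smul]
  push_cast
  have key : ∀ p u : ℝ, |s * (q * p) - q * u| = |(q : ℝ)| * |s * p - u| := by
    intro p u
    rw [← abs_mul]
    congr 1
    ring
  rw [key, key, key, key]
  have e : |(q : ℝ)| * |s * x.a - X.a| + |(q : ℝ)| * |s * x.b - X.b| + (|(q : ℝ)| * |s * x.c - X.c| + |(q : ℝ)| * |s * x.d - X.d|) =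
      |(q : ℝ)| * (|s * x.a - X.a| + |s * x.b - X.b| + (|s * x.c - X.c| + |s * x.d - X.d|)) := by ring
  rw [e]
  have e2 : ((q.natAbs : ℕ) : ℝ) = |(q : ℝ)| := by
    rw [Nat.cast_natAbs, Int.cast_abs]
  rw [e2]
  exact mul_le_mul_of_nonneg_left h (abs_nonneg _)

lemma Rc.cst {s : ℝ} {x : V4 ℝ} {X : CR} (h : Rc s x X) : Rc s ⟨x.a, 0, 0, 0⟩ X.cst := by
  unfold Rc at *
  simp only [CR.cst]
  have h1 := abs_nonneg (s * x.b - X.b)
  have h2 := abs_nonneg (s * x.c - X.c)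
  have h3 := abs_nonneg (s * x.d - X.d)
  simp only [mul_zero, Int.cast_zero, sub_zero, abs_zero, add_zero]
  linarith

lemma Rc.r4 {s : ℝ} {x : V4 ℝ} {X : CR} (h : Rc s x X) :
    R4 s x ⟨⟨X.a - X.r, X.a + X.r⟩, ⟨X.b - X.r, X.b + X.r⟩, ⟨X.c - X.r, X.c + X.r⟩, ⟨X.d - X.r, X.d + X.r⟩⟩ := by
  unfold Rc at h
  have h0 := abs_nonneg (s * x.a - X.a)
  have h1 := abs_nonneg (s * x.b - X.b)
  have h2 := abs_nonneg (s * x.c - X.c)
  have h3 := abs_nonneg (s * x.d - X.d)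
  have key : ∀ (u : ℝ) (v : ℤ), |s * u - v| ≤ X.r → iv s u ⟨v - X.r, v + X.r⟩ := by
    intro u v hu
    rw [abs_le] at hu
    unfold iv
    push_cast
    constructor <;> linarith [hu.1, hu.2]
  exact ⟨key _ _ (by linarith), key _ _ (by linarith), key _ _ (by linarith), key _ _ (by linarith)⟩

/-- floor division -/
lemma ediv_err (u : ℤ) {M : ℕ} (hM : 0 < M) : |(u : ℝ) / M - ((u / (M : ℤ) : ℤ) : ℝ)| ≤ 1 := by
  have hM' : (0:ℝ) < M := by exact_mod_cast hM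
  have hMz : (0:ℤ) < M := by exact_mod_cast hM
  have h1 : (M : ℤ) * (u / M) + u % M = u := Int.mul_ediv_add_emod u M
  have h2 : 0 ≤ u % (M : ℤ) := Int.emod_nonneg _ hMz.ne'
  have h3 : u % (M : ℤ) < M := Int.emod_lt_of_pos _ hMz
  have h1' : (M : ℝ) * ((u / (M : ℤ) : ℤ) : ℝ) + ((u % (M : ℤ) : ℤ) : ℝ) = u := by exact_mod_cast h1
  have h2' : (0:ℝ) ≤ ((u % (M : ℤ) : ℤ) : ℝ) := by exact_mod_cast h2
  have h3' : ((u % (M : ℤ) : ℤ) : ℝ) < M := by exact_mod_cast h3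
  have e : (u : ℝ) / M - ((u / (M : ℤ) : ℤ) : ℝ) = ((u % (M : ℤ) : ℤ) : ℝ) / M := by
    rw [← h1']
    field_simp
    ring
  rw [e, abs_of_nonneg (by positivity), div_le_one hM']
  exact h3'.le

lemma Rc.scale {s : ℝ} {x : V4 ℝ} {X : CR} {M : ℕ} (hM : 0 < M) (h : Rc (s * M) x X) : Rc s x (X.scale M) := by
  have hM' : (0:ℝ) < M := by exact_mod_cast hM
  unfold Rc at *
  simp only [CR.scale]
  have key : ∀ (p : ℝ) (u : ℤ), |s * p - ((u / (M : ℤ) : ℤ) : ℝ)| ≤ |s * M * p - u| / M + 1 := by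
    intro p u
    have e : s * p - ((u / (M : ℤ) : ℤ) : ℝ) = (s * M * p - u) / M + ((u : ℝ) / M - ((u / (M : ℤ) : ℤ) : ℝ)) := by
      field_simp
      ring
    rw [e]
    refine (abs_add_le _ _).trans ?_
    rw [abs_div, abs_of_pos hM']
    linarith [ediv_err u hM]
  have k1 := key x.a X.a
  have k2 := key x.b X.b
  have k3 := key x.c X.c
  have k4 := key x.d X.d
  have hr : (X.r : ℝ) / M ≤ ((X.r / M : ℕ) : ℝ) + 1 := by
    rw [div_le_iff₀ hM']
    have h1 : X.r = M * (X.r / M) + X.r % M := (Nat.div_add_mod _ _).symm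
    have h2 : X.r % M < M := Nat.mod_lt _ hM
    have h3 : X.r ≤ (X.r / M + 1) * M := by nlinarith
    exact_mod_cast h3
  have hs : (|s * M * x.a - X.a| + |s * M * x.b - X.b| + (|s * M * x.c - X.c| + |s * M * x.d - X.d|)) / M ≤ X.r / M := by
    gcongr
  rw [add_div, add_div, add_div] at hs
  push_cast
  linarith

end Pool.Agent.Helper34.HV
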