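import Pool.Agent.Helper34.HV.Fin
import Pool.Agent.Helper34.HV.CR

/-! NUM2: the limit functional as a computation with lists, over any ring-like operations. -/

open Finset

namespace Pool.Agent.Helper34.HV

open Pool.Agent.Helper69.HG Pool.Agent.Helper25.HV

/-- operations -/
structure Ops (β : Type*) where
  zero : β
  add : β → β → β
  mul : β → β → β
  smul : ℤ → β → β

section

variable {β : Type*} (O : Ops β)

/-- `∑ Q_i h_i` -/
def qdotO : List ℤ → List β → β
  | q :: Q, h :: H => O.add (O.smul q h) (qdotO Q H)
  | _, _ => O.zero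

/-- all sums `∑_i Q_(s+i) h_i` -/
def plist (H : List β) : List ℤ → List β
  | [] => []
  | q :: Q => qdotO O (q :: Q) H :: plist H Q

/-- `∑ g p q` -/
def dot3 : List β → List β → List β → β
  | g :: G, p :: P, q :: Q => O.add (O.mul g (O.mul p q)) (dot3 G P Q)
  | _, _, _ => O.zero

/-- one row -/
def rowO (F11 F22 B1 B2 : List β) : List β → List β → List β → β
  | g :: G, C1, C2 => O.add (O.mul g (O.mul (dot3 O F11 B1 C1) (dot3 O F22 B2 C2))) (rowO F11 F22 B1 B2 G C1.tail C2.tail)
  | [], _, _ => O.zero

/-- all rows, using the symmetry -/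
def allO (F11 F22 : List β) : List β → List β → List β → β
  | g :: G, B1, B2 => O.add (O.mul g (O.add (O.mul g (O.mul (dot3 O F11 B1 B1) (dot3 O F22 B2 B2)))
      (O.smul 2 (rowO O F11 F22 B1 B2 G B1.tail B2.tail)))) (allO F11 F22 G B1.tail B2.tail)
  | [], _, _ => O.zero

end

/-- a graded relation which respects the operations -/
structure Rel {β γ : Type*} (O : Ops β) (O' : Ops γ) (R : ℝ → β → γ → Prop) : Prop where
  zero : ∀ s, R s O.zero O'.zero
  add : ∀ {s x y X Y}, R s x X → R s y Y → R s (O.add x y) (O'.add X Y)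
  mul : ∀ {s t x y X Y}, R s x X → R t y Y → R (s * t) (O.mul x y) (O'.mul X Y)
  smul : ∀ {s x X} (q : ℤ), R s x X → R s (O.smul q x) (O'.smul q X)

section

variable {β γ : Type*} {O : Ops β} {O' : Ops γ} {R : ℝ → β → γ → Prop} (h : Rel O O' R)
include h

lemma Rel.qdot {s : ℝ} (Q : List ℤ) {H : List β} {H' : List γ} (h1 : List.Forall₂ (R s) H H') :
    R s (qdotO O Q H) (qdotO O' Q H') := by
  induction Q generalizing H H' with
  | nil => cases h1 <;> exact h.zero s
  | cons q Q ih =>
    cases h1 with
    | nil => exact h.zero s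
    | cons a b =>
      simp only [qdotO]
      exact h.add (h.smul q a) (ih b)

lemma Rel.plist {s : ℝ} (Q : List ℤ) {H : List β} {H' : List γ} (h1 : List.Forall₂ (R s) H H') :
    List.Forall₂ (R s) (plist O H Q) (plist O' H' Q) := by
  induction Q with
  | nil => exact List.Forall₂.nil
  | cons q Q ih => exact List.Forall₂.cons (h.qdot (q :: Q) h1) ih

lemma Rel.dot3 {s t u : ℝ} {F P Q : List β} {F' P' Q' : List γ} (h1 : List.Forall₂ (R s) F F')
    (h2 : List.Forall₂ (R t) P P') (h3 : List.Forall₂ (R u) Q Q') :
    R (s * (t * u)) (dot3 O F P Q) (dot3 O' F' P' Q') := by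
  induction h1 generalizing P Q P' Q' with
  | nil => cases h2 <;> cases h3 <;> exact h.zero _
  | cons a _ ih =>
    cases h2 with
    | nil => cases h3 <;> exact h.zero _
    | cons b b' =>
      cases h3 with
      | nil => exact h.zero _
      | cons c c' => exact h.add (h.mul a (h.mul b c)) (ih b' c')

omit h in
lemma forall₂_tail {β γ : Type*} {R : β → γ → Prop} {L : List β} {L' : List γ} (h : List.Forall₂ R L L') :
    List.Forall₂ R L.tail L'.tail := by
  cases h with
  | nil => exact List.Forall₂.nil
  | cons _ h => exact h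

/-- scale of `T(b, c)` -/
def sT (s t : ℝ) : ℝ := (s * (t * t)) * (s * (t * t))

lemma Rel.row {s t : ℝ} {F11 F22 B1 B2 : List β} {F11' F22' B1' B2' : List γ} (f1 : List.Forall₂ (R s) F11 F11')
    (f2 : List.Forall₂ (R s) F22 F22') (b1 : List.Forall₂ (R t) B1 B1') (b2 : List.Forall₂ (R t) B2 B2')
    {G C1 C2 : List β} {G' C1' C2' : List γ} (g : List.Forall₂ (R s) G G') (c1 : List.Forall₂ (R t) C1 C1')
    (c2 : List.Forall₂ (R t) C2 C2') :
    R (s * sT s t) (rowO O F11 F22 B1 B2 G C1 C2) (rowO O' F11' F22' B1' B2' G' C1' C2') := by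
  induction g generalizing C1 C2 C1' C2' with
  | nil => exact h.zero _
  | cons a _ ih =>
    simp only [rowO]
    exact h.add (h.mul a (h.mul (h.dot3 f1 b1 c1) (h.dot3 f2 b2 c2))) (ih (forall₂_tail c1) (forall₂_tail c2))

lemma Rel.all {s t : ℝ} {F11 F22 : List β} {F11' F22' : List γ} (f1 : List.Forall₂ (R s) F11 F11')
    (f2 : List.Forall₂ (R s) F22 F22') {G B1 B2 : List β} {G' B1' B2' : List γ} (g : List.Forall₂ (R s) G G')
    (b1 : List.Forall₂ (R t) B1 B1') (b2 : List.Forall₂ (R t) B2 B2') :
    R (s * (s * sT s t)) (allO O F11 F22 G B1 B2) (allO O' F11' F22' G' B1' B2') := by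
  induction g generalizing B1 B2 B1' B2' with
  | nil => exact h.zero _
  | cons a gg ih =>
    simp only [allO]
    refine h.add (h.mul a (h.add (h.mul a (h.mul (h.dot3 f1 b1 b1) (h.dot3 f2 b2 b2))) (h.smul 2 ?_)))
      (ih (forall₂_tail b1) (forall₂_tail b2))
    exact h.row f1 f2 b1 b2 gg (forall₂_tail b1) (forall₂_tail b2)

end

/-! ### the three levels -/

/-- functions -/
noncomputable def OF : Ops (ℝ → ℝ) := ⟨fun _ => 0, fun f g y => f y + g y, fun f g y => f y * g y, fun q f y => (q : ℝ) * f y⟩

/-- jets -/
noncomputable def OV : Ops (V4 ℝ) := ⟨⟨0, 0, 0, 0⟩, V4.add, V4.mul, fun q x => x.smul (q : ℝ)⟩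

/-- centres with radius -/
def OC : Ops CR := ⟨CR.zero, CR.add, CR.mul, CR.smul⟩

lemma relJ : Rel OF OV (fun _ => J) where
  zero _ := J.const 0
  add h h' := h.add h'
  mul h h' := h.mul h'
  smul q h := h.smul (q : ℝ)

lemma relC : Rel OV OC Rc where
  zero := Rc_zero
  add h h' := h.add h'
  mul h h' := h.mul h'
  smul q h := h.smul q

/-! ### real numbers -/

/-- real numbers -/
noncomputable def OR : Ops ℝ := ⟨0, fun f g => f + g, fun f g => f * g, fun q f => (q : ℝ) * f⟩

lemma relE (y : ℝ) : Rel OF OR (fun _ f x => f y = x) where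
  zero _ := rfl
  add h h' := by subst h h'; rfl
  mul h h' := by subst h h'; rfl
  smul q h := by subst h; rfl

lemma qdotO_range (L : List ℤ) (h : ℕ → ℝ) (k s : ℕ) :
    qdotO OR L ((List.range' s k).map h) = ∑ i ∈ range k, (L.getD i 0 : ℝ) * h (s + i) := by
  induction k generalizing s L with
  | zero => cases L <;> simp [qdotO, OR]
  | succ k ih =>
    rw [List.range'_succ, List.map_cons, Finset.sum_range_succ']
    cases L with
    | nil => simp [qdotO, OR]
    | cons q Q =>
      simp only [qdotO]
      rw [ih]
      simp only [OR, List.getD_cons_zero, List.getD_cons_succ, add_zero]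
      rw [add_comm]
      congr 1
      refine Finset.sum_congr rfl fun i _ => ?_
      rw [show s + 1 + i = s + (i + 1) by ring]

lemma plist_range (L : List ℤ) (h : ℕ → ℝ) (k : ℕ) :
    plist OR ((List.range' 0 k).map h) L =
      (List.range' 0 L.length).map fun s => ∑ i ∈ range k, (L.getD (s + i) 0 : ℝ) * h i := by
  have key : ∀ (M : List ℤ) (t : ℕ), (∀ i, M.getD i 0 = L.getD (t + i) 0) →
      plist OR ((List.range' 0 k).map h) M =
        (List.range' t M.length).map fun s => ∑ i ∈ range k, (L.getD (s + i) 0 : ℝ) * h i := by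
    intro M
    induction M with
    | nil => intro t _; rfl
    | cons q M ih =>
      intro t ht
      rw [List.length_cons, List.range'_succ, List.map_cons]
      simp only [plist]
      congr 1
      · rw [qdotO_range]
        refine Finset.sum_congr rfl fun i _ => ?_
        rw [ht, zero_add]
      · refine ih (t + 1) fun i => ?_
        have := ht (i + 1)
        rw [List.getD_cons_succ] at this
        rw [this]
        congr 1
        ring
  exact key L 0 fun i => by rw [zero_add]

lemma dot3_range (f g h : ℕ → ℝ) (k l m s t u : ℕ) :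
    dot3 OR ((List.range' s k).map f) ((List.range' t l).map g) ((List.range' u m).map h) =
      ∑ i ∈ range (min k (min l m)), f (s + i) * (g (t + i) * h (u + i)) := by
  induction k generalizing l m s t u with
  | zero => simp [dot3, OR]
  | succ k ih =>
    cases l with
    | zero => simp [dot3, OR]
    | succ l =>
      cases m with
      | zero => simp [dot3, OR]
      | succ m =>
        rw [List.range'_succ, List.range'_succ, List.range'_succ, List.map_cons, List.map_cons, List.map_cons]
        have e : min (k + 1) (min (l + 1) (m + 1)) = min k (min l m) + 1 := by omega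
        rw [e, Finset.sum_range_succ']
        simp only [dot3]
        rw [ih]
        simp only [OR, add_zero]
        rw [add_comm]
        congr 1
        refine Finset.sum_congr rfl fun i _ => ?_
        rw [show s + 1 + i = s + (i + 1) by ring, show t + 1 + i = t + (i + 1) by ring,
          show u + 1 + i = u + (i + 1) by ring]

end Pool.Agent.Helper34.HV
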