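import Pool.Agent.Helper34.HV.Rl

/-! NUM2: checks of the lists and their soundness. -/

open Finset

namespace Pool.Agent.Helper34.HV

open Pool.Agent.Helper69.HG Pool.Agent.Helper25.HV

/-- scalar product -/
def dotC : List CR → List CR → CR
  | a :: A, b :: B => (a.mul b).add (dotC A B)
  | _, _ => CR.zero

lemma Rc_dot {s t : ℝ} {A B : List (V4 ℝ)} {A' B' : List CR} (h1 : List.Forall₂ (Rc s) A A')
    (h2 : List.Forall₂ (Rc t) B B') : Rc (s * t) (dotv A B) (dotC A' B') := by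
  induction h1 generalizing B B' with
  | nil => cases h2 <;> exact Rc_zero _
  | cons a _ ih =>
    cases h2 with
    | nil => exact Rc_zero _
    | cons b b' => exact (a.mul b).add (ih b')

/-- the recursion for `[g N, ..., g 0]` -/
def chkR (s : ℕ) (A : List CR) : List CR → Bool
  | [] => false
  | g :: G => match G with
    | [] => decide (g = ⟨s, 0, 0, 0, 0⟩)
    | _ :: _ => decide ((dotC A G).scale (s * G.length) = g) && chkR s A G

lemma chkR_sound {s : ℕ} (hs : 0 < s) {A : List (V4 ℝ)} {A' : List CR} (hA : List.Forall₂ (Rc s) A A') :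
    ∀ (G : List CR) (n : ℕ), G.length = n + 1 → chkR s A' G = true → List.Forall₂ (Rc s) (RL A n) G := by
  intro G
  induction G with
  | nil => intro n h; simp at h
  | cons g G ih =>
    intro n hn hc
    cases G with
    | nil =>
      have : n = 0 := by simpa using hn.symm
      subst this
      simp only [chkR, decide_eq_true_eq] at hc
      subst hc
      refine List.Forall₂.cons ?_ List.Forall₂.nil
      simp [Rc]
    | cons g' G =>
      cases n with
      | zero => simp at hn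
      | succ n =>
        have hlen : (g' :: G).length = n + 1 := by simpa using hn
        simp only [chkR, Bool.and_eq_true, decide_eq_true_eq] at hc
        obtain ⟨h1, h2⟩ := hc
        have hr := ih n hlen h2
        refine List.Forall₂.cons ?_ hr
        have hd := Rc_dot hA hr
        rw [← h1, hlen]
        refine Rc.scale (Nat.mul_pos hs (by omega)) ?_
        have hn1 : (n:ℝ) + 1 ≠ 0 := by positivity
        unfold Rc at hd ⊢
        simp only [V4.smul]
        push_cast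
        have key : ∀ p : ℝ, (s : ℝ) * ((s : ℝ) * ((n : ℝ) + 1)) * (1 / ((n : ℝ) + 1) * p) = (s : ℝ) * s * p := by
          intro p
          field_simp
        rw [key, key, key, key]
        exact hd

/-! ### entries -/

/-- bounds of the jet of a block integral -/
structure E8 where
  L : ℕ
  e : ℕ
  bn : ℕ
  bd : ℕ
  cn : ℕ
  cd : ℕ
  dn : ℕ
  dd : ℕ

/-- the jet lies in the bounds -/
structure E8.ok (E : E8) (z : V4 ℝ) : Prop where
  lo : (E.L : ℝ) / 10 ^ 10 ≤ z.a
  hi : z.a ≤ ((E.L : ℝ) + E.e) / 10 ^ 10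
  b : z.b = (E.bn : ℝ) / E.bd
  c : z.c = (E.cn : ℝ) / E.cd
  d : z.d = (E.dn : ℝ) / E.dd
  bp : 0 < E.bd
  cp : 0 < E.cd
  dp : 0 < E.dd

/-- check of an entry; the weight is `m wn / 100` -/
def chkE (s wn m : ℕ) (E : E8) (X : CR) : Bool :=
  decide ((10 ^ 12 : ℤ) * X.a ≤ (s * m * wn * E.L : ℕ)) &&
  decide (((s * m * wn * (E.L + E.e) : ℕ) : ℤ) ≤ 10 ^ 12 * (X.a + X.r - 3)) &&
  (decide ((100 * E.bd : ℕ) * X.b ≤ (s * m * wn * E.bn : ℕ)) &&
   decide (((s * m * wn * E.bn : ℕ) : ℤ) ≤ (100 * E.bd : ℕ) * (X.b + 1))) &&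
  (decide ((100 * E.cd : ℕ) * X.c ≤ (s * m * wn * E.cn : ℕ)) &&
   decide (((s * m * wn * E.cn : ℕ) : ℤ) ≤ (100 * E.cd : ℕ) * (X.c + 1))) &&
  (decide ((100 * E.dd : ℕ) * X.d ≤ (s * m * wn * E.dn : ℕ)) &&
   decide (((s * m * wn * E.dn : ℕ) : ℤ) ≤ (100 * E.dd : ℕ) * (X.d + 1)))

lemma rat_err {U n d : ℕ} {x : ℤ} (hd : 0 < d) (h1 : ((100 * d : ℕ) : ℤ) * x ≤ (U * n : ℕ))
    (h2 : ((U * n : ℕ) : ℤ) ≤ (100 * d : ℕ) * (x + 1)) : |(U : ℝ) / 100 * ((n : ℝ) / d) - x| ≤ 1 := by
  have hd' : (0:ℝ) < d := by exact_mod_cast hd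
  have h1' : (100 * (d:ℝ)) * x ≤ U * n := by exact_mod_cast h1
  have h2' : (U : ℝ) * n ≤ (100 * (d:ℝ)) * (x + 1) := by exact_mod_cast h2
  have e : (U : ℝ) / 100 * ((n : ℝ) / d) = (U * n) / (100 * d) := by field_simp
  rw [e, abs_le]
  constructor
  · have : (x : ℝ) ≤ (U * n) / (100 * d) := by
      rw [le_div_iff₀ (by positivity)]
      linarith
    linarith
  · have : ((U : ℝ) * n) / (100 * d) ≤ x + 1 := by
      rw [div_le_iff₀ (by positivity)]
      linarith
    linarith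

lemma chkE_sound {s wn m : ℕ} {E : E8} {X : CR} {z : V4 ℝ} (hE : E.ok z) (h : chkE s wn m E X = true) {w : ℝ}
    (hw : w = (wn : ℝ) / 100) : Rc s (z.smul ((m : ℝ) * w)) X := by
  unfold chkE at h
  simp only [Bool.and_eq_true, decide_eq_true_eq] at h
  obtain ⟨⟨⟨⟨h1, h2⟩, h3, h4⟩, h5, h6⟩, h7, h8⟩ := h
  set U : ℕ := s * m * wn with hU
  have hU' : (U : ℝ) = s * m * wn := by rw [hU]; push_cast; ring
  have b1 := rat_err hE.bp h3 h4
  have b2 := rat_err hE.cp h5 h6
  have b3 := rat_err hE.dp h7 h8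
  have a1 : (10 ^ 12 : ℝ) * X.a ≤ U * E.L := by exact_mod_cast h1
  have a2 : (U : ℝ) * (E.L + E.e) ≤ 10 ^ 12 * (X.a + X.r - 3) := by exact_mod_cast h2
  have hU0 : (0:ℝ) ≤ U := Nat.cast_nonneg _
  have a3 : (X.a : ℝ) ≤ U / 100 * z.a := by
    have := mul_le_mul_of_nonneg_left hE.lo hU0
    nlinarith
  have a4 : (U : ℝ) / 100 * z.a ≤ X.a + X.r - 3 := by
    have := mul_le_mul_of_nonneg_left hE.hi hU0
    nlinarith
  have a5 : |(U : ℝ) / 100 * z.a - X.a| ≤ X.r - 3 := by
    rw [abs_le]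
    constructor <;> linarith
  have key : ∀ p : ℝ, (s : ℝ) * ((m : ℝ) * w * p) = (U : ℝ) / 100 * p := by
    intro p
    rw [hw, hU']
    ring
  unfold Rc
  simp only [V4.smul]
  rw [key, key, key, key]
  rw [← hE.b] at b1
  rw [← hE.c] at b2
  rw [← hE.d] at b3
  linarith

/-- check of a list -/
def chkA (s : ℕ) (wn : ℕ → ℕ) (ed : ℕ → E8) : ℕ → List CR → Bool
  | _, [] => true
  | m, X :: L => chkE s (wn m) m (ed m) X && chkA s wn ed (m + 1) L

lemma chkA_sound {s : ℕ} {wn : ℕ → ℕ} {ed : ℕ → E8} {w : ℕ → ℝ} {z : ℕ → V4 ℝ} (B : ℕ)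
    (hz : ∀ m, 1 ≤ m → m ≤ B → (ed m).ok (z m)) (hw : ∀ m, w m = (wn m : ℝ) / 100) :
    ∀ (L : List CR) (m : ℕ), 1 ≤ m → m + L.length ≤ B + 1 → chkA s wn ed m L = true →
      List.Forall₂ (Rc s) ((List.range' m L.length).map fun m : ℕ => (z m).smul ((m : ℝ) * w m)) L := by
  intro L
  induction L with
  | nil => intro m _ _ _; exact List.Forall₂.nil
  | cons X L ih =>
    intro m hm hl h
    simp only [chkA, Bool.and_eq_true] at h
    rw [List.length_cons] at hl
    rw [List.length_cons, List.range'_succ, List.map_cons]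
    exact List.Forall₂.cons (chkE_sound (hz m hm (by omega)) h.1 (hw m)) (ih (m + 1) (by omega) (by omega) h.2)

/-- the bounds: `lo = 1/(2^k S)` -/
def eD (S k m : ℕ) : E8 :=
  if m = 1 then ⟨k * 6931471805, k, 2 ^ k - 1, 2 ^ k * S, (2 ^ k) ^ 2 - 1, 4 * (2 ^ k * S) ^ 2, (2 ^ k) ^ 3 - 1,
    18 * (2 ^ k * S) ^ 3⟩
  else ⟨LL.getD (m - 2) 0, 1, 1, S, 2 * m - 1, 4 * S ^ 2, 3 * (m - 1) ^ 2 + 3 * (m - 1) + 1, 18 * S ^ 3⟩

lemma eD_ok (D : Dat) (k : ℕ) (hS : 1 ≤ D.S) (hlo : D.lo = 1 / (2 ^ k * D.S)) (m : ℕ) (h1 : 1 ≤ m) (h2 : m ≤ 32) :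
    (eD D.S k m).ok (EJD D m) := by
  have hS' : (0:ℝ) < D.S := by exact_mod_cast hS
  have hk : (1:ℝ) ≤ 2 ^ k := one_le_pow₀ (by norm_num)
  have hk' : (1:ℕ) ≤ 2 ^ k := Nat.one_le_two_pow
  by_cases hm : m = 1
  · subst hm
    have hp : pD D 1 = 1 / (2 ^ k * D.S) := by
      unfold pD
      rw [hlo]
      apply max_eq_left
      simp only [Nat.cast_one, sub_self, zero_div]
      positivity
    have hq : qD D 1 = 1 / D.S := by
      unfold qD
      simp
    have e1 : eD D.S k 1 = ⟨k * 6931471805, k, 2 ^ k - 1, 2 ^ k * D.S, (2 ^ k) ^ 2 - 1, 4 * (2 ^ k * D.S) ^ 2,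
      (2 ^ k) ^ 3 - 1, 18 * (2 ^ k * D.S) ^ 3⟩ := by
      unfold eD
      rw [if_pos rfl]
    have hlog : Real.log (qD D 1 / pD D 1) = k * Real.log 2 := by
      rw [hp, hq]
      have : (1 : ℝ) / D.S / (1 / (2 ^ k * D.S)) = 2 ^ k := by
        field_simp
      rw [this, Real.log_pow]
    have hb := log_bds 1 le_rfl (by norm_num)
    have hL : LL.getD 0 0 = 6931471805 := rfl
    simp only [Nat.sub_self, hL, Nat.cast_one] at hb
    norm_num at hb
    have hk0 : (0:ℝ) ≤ k := Nat.cast_nonneg _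
    rw [e1]
    refine ⟨?_, ?_, ?_, ?_, ?_, ?_, ?_, ?_⟩
    · simp only [EJD, EJ2]
      rw [hlog]
      push_cast
      have := mul_le_mul_of_nonneg_left hb.1 hk0
      refine le_trans (le_of_eq ?_) this
      ring
    · simp only [EJD, EJ2]
      rw [hlog]
      push_cast
      have := mul_le_mul_of_nonneg_left hb.2 hk0
      refine this.trans (le_of_eq ?_)
      ring
    · simp only [EJD, EJ2]
      rw [hp, hq]
      push_cast [Nat.cast_sub hk']
      field_simp
    · simp only [EJD, EJ2]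
      rw [hp, hq, Nat.cast_sub (Nat.one_le_pow _ _ hk')]
      push_cast
      field_simp
    · simp only [EJD, EJ2]
      rw [hp, hq, Nat.cast_sub (Nat.one_le_pow _ _ hk')]
      push_cast
      field_simp
    · positivity
    · positivity
    · positivity
  · have hm2 : 2 ≤ m := by omega
    have hm1 : ((m - 1 : ℕ) : ℝ) = (m : ℝ) - 1 := by rw [Nat.cast_sub h1]; simp
    have hmr : (2:ℝ) ≤ m := by exact_mod_cast hm2
    have hp : pD D m = ((m : ℝ) - 1) / D.S := by
      unfold pD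
      apply max_eq_right
      rw [hlo]
      have : (1:ℝ) / (2 ^ k * D.S) ≤ 1 / D.S := by
        apply one_div_le_one_div_of_le hS'
        nlinarith
      refine this.trans ?_
      gcongr
      linarith
    have hq : qD D m = (m : ℝ) / D.S := rfl
    have e1 : eD D.S k m = ⟨LL.getD (m - 2) 0, 1, 1, D.S, 2 * m - 1, 4 * D.S ^ 2,
      3 * (m - 1) ^ 2 + 3 * (m - 1) + 1, 18 * D.S ^ 3⟩ := by
      unfold eD
      rw [if_neg hm]
    have hb := log_bds (m - 1) (by omega) (by omega)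
    rw [show m - 1 - 1 = m - 2 by omega, hm1] at hb
    have hlog : Real.log (qD D m / pD D m) = Real.log ((m : ℝ) - 1 + 1) - Real.log ((m:ℝ) - 1) := by
      rw [hp, hq, ← Real.log_div (by linarith) (by linarith)]
      congr 1
      have : (m : ℝ) - 1 ≠ 0 := by linarith
      field_simp
      ring
    rw [Real.log_div (by linarith) (by linarith)] at hb
    rw [e1]
    refine ⟨?_, ?_, ?_, ?_, ?_, ?_, ?_, ?_⟩
    · simp only [EJD, EJ2]
      rw [hlog]
      exact hb.1
    · simp only [EJD, EJ2]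
      rw [hlog]
      push_cast
      exact hb.2
    · simp only [EJD, EJ2]
      rw [hp, hq]
      push_cast
      ring
    · simp only [EJD, EJ2]
      rw [hp, hq, Nat.cast_sub (by omega)]
      push_cast
      field_simp
      ring
    · simp only [EJD, EJ2]
      rw [hp, hq]
      push_cast
      rw [hm1]
      field_simp
      ring
    · exact hS
    · positivity
    · positivity

end Pool.Agent.Helper34.HV
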