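import Pool.Agent.Helper34.HV.Ja

/-! NUM2, last part: from the jets of the limits to the block. -/

open Finset Polynomial MeasureTheory

namespace Pool.Agent.Helper34.HV

open Pool.Agent.Helper69.HG Pool.Agent.Helper25.HV

section poly

variable {α : Type*} [Zero α] [Add α] [Mul α] [Neg α]

/-- `6 (A B - e A' B')`, `e = (1,1,1/2,1/6)` -/
def tot2 (c : ℤ → α) (A A' B B' : V4 α) : V4 α :=
  ((A.mul B).smul (c 6)).add ((V4.mul (⟨c 6, c 6, c 3, c 1⟩ : V4 α) (A'.mul B')).smul (c (-1)))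

end poly

/-- the final check -/
def fin2 (IA IA' IB IB' : V4 Iv) : Bool :=
  let P := tot2 cI IA IA' IB IB'
  decide (P.b.hi < 0) && decide (-1527621 * P.b.lo + 3278600 * P.c.hi - 3380000 * P.d.lo < 0)

lemma R4_tot2 {s t : ℝ} {A A' B B' : V4 ℝ} {IA IA' IB IB' : V4 Iv} (h1 : R4 s A IA) (h2 : R4 s A' IA')
    (h3 : R4 t B IB) (h4 : R4 t B' IB') : R4 (s * t) (tot2 cR A A' B B') (tot2 cI IA IA' IB IB') := by
  unfold tot2
  have e : R4 1 (⟨cR 6, cR 6, cR 3, cR 1⟩ : V4 ℝ) (⟨cI 6, cI 6, cI 3, cI 1⟩ : V4 Iv) := ⟨iv_c 6, iv_c 6, iv_c 3, iv_c 1⟩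
  have q1 : R4 (s * t) ((A.mul B).smul (cR 6)) ((IA.mul IB).smul (cI 6)) := by
    have := R4.smul (iv_c 6) (h1.mul h3)
    rwa [one_mul] at this
  have q2 : R4 (s * t) ((V4.mul (⟨cR 6, cR 6, cR 3, cR 1⟩ : V4 ℝ) (A'.mul B')).smul (cR (-1)))
      ((V4.mul (⟨cI 6, cI 6, cI 3, cI 1⟩ : V4 Iv) (IA'.mul IB')).smul (cI (-1))) := by
    have := R4.smul (iv_c (-1)) (e.mul (h2.mul h4))
    rwa [one_mul, one_mul] at this
  exact q1.add q2

lemma J_tot2 {f f' g g' : ℝ → ℝ} {A A' B B' : V4 ℝ} (h1 : J f A) (h2 : J f' A') (h3 : J g B) (h4 : J g' B') :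
    J (fun y => 6 * (f y * g y - Real.exp (-y) * (f' y * g' y))) (tot2 cR A A' B B') := by
  have q1 := (h1.mul h3).smul 6
  have q2 := (J_exp.mul (h2.mul h4)).smul (-6)
  have q3 := q1.add q2
  have e1 : (fun y => 6 * (f y * g y - Real.exp (-y) * (f' y * g' y))) =
      fun y => 6 * (f y * g y) + -6 * (Real.exp (-y) * (f' y * g' y)) := by
    funext y; ring
  rw [e1]
  refine q3.congr ?_
  simp only [tot2, V4.add, V4.smul, V4.mul, cR]
  push_cast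
  congr 1 <;> ring

lemma fin2_aux {s b c d : ℝ} (hs : 0 < s) (P : V4 Iv)
    (h : (decide (P.b.hi < 0) && decide (-1527621 * P.b.lo + 3278600 * P.c.hi - 3380000 * P.d.lo < 0)) = true)
    (h2 : (P.b.lo : ℝ) ≤ s * b ∧ s * b ≤ P.b.hi)
    (h3 : (P.c.lo : ℝ) ≤ s * c ∧ s * c ≤ P.c.hi) (h4 : (P.d.lo : ℝ) ≤ s * d ∧ s * d ≤ P.d.hi) :
    b < 0 ∧ -1527621 * b + 3278600 * c - 3380000 * d < 0 := by
  rw [Bool.and_eq_true, decide_eq_true_eq, decide_eq_true_eq] at h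
  have c1 : ((P.b.hi : ℤ) : ℝ) < 0 := by exact_mod_cast h.1
  have c2 : (-1527621 : ℝ) * P.b.lo + 3278600 * P.c.hi - 3380000 * P.d.lo < 0 := by exact_mod_cast h.2
  constructor
  · by_contra hh
    push Not at hh
    have : 0 ≤ s * b := by positivity
    linarith [h2.2]
  · by_contra hh
    push Not at hh
    have : 0 ≤ s * (-1527621 * b + 3278600 * c - 3380000 * d) := mul_nonneg hs.le hh
    nlinarith [h2.1, h3.2, h4.1]

/-- the numerator of `Phi2` at `y = 2x` -/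
noncomputable def N2 (y : ℝ) : ℝ := LLD dA y y * LLD dB y y - Real.exp (-y) * (LLD dA y 0 * LLD dB y 0)

theorem num2_of {A A' B B' : V4 ℝ} (hA : J (fun y => LLD dA y y) A) (hA' : J (fun y => LLD dA y 0) A')
    (hB : J (fun y => LLD dB y y) B) (hB' : J (fun y => LLD dB y 0) B') {s t : ℝ} (hs : 0 < s) (ht : 0 < t)
    {IA IA' IB IB' : V4 Iv} (hIA : R4 s A IA) (hIA' : R4 s A' IA') (hIB : R4 t B IB) (hIB' : R4 t B' IB')
    (h : fin2 IA IA' IB IB' = true) : NUM2 := by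
  have hN : J (fun y => 6 * N2 y) (tot2 cR A A' B B') := J_tot2 hA hA' hB hB'
  have hR := R4_tot2 hIA hIA' hIB hIB'
  set PT := tot2 cR A A' B B' with hPT
  obtain ⟨C, hC, hJ⟩ := hN
  have h0 : PT.a = 0 := by
    have h := J_at_zero (J_tot2 hA hA' hB hB')
    rw [← hPT] at h
    rw [← h]
    simp
  obtain ⟨_, r2, r3, r4⟩ := hR
  obtain ⟨n1, n2⟩ := fin2_aux (mul_pos hs ht) (tot2 cI IA IA' IB IB') h r2 r3 r4
  refine ⟨-PT.b / 6, -PT.c / 6, -2 * PT.d / 6, 8 * C / 6, by linarith, by linarith, fun x hx0 hx => ?_⟩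
  have h := hJ (2 * x) (by positivity) (by linarith)
  have e : Phi2 x = N2 (2 * x) / (2 * x) := rfl
  have e2 : Phi2 x - (-PT.b / 6 - 2 * x * (-PT.c / 6) + 2 * x ^ 2 * (-2 * PT.d / 6)) =
      (6 * N2 (2 * x) - pv PT (2 * x)) / (6 * (2 * x)) := by
    rw [e]
    unfold pv
    rw [h0]
    field_simp
    ring
  rw [e2, abs_div, abs_of_pos (by positivity : (0:ℝ) < 6 * (2 * x)), div_le_iff₀ (by positivity)]
  refine h.trans (le_of_eq ?_)
  ring

end Pool.Agent.Helper34.HV
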