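import Pool.Agent.Helper25.HV.Defs
import Pool.Agent.Helper69.HG.Tot
import Pool.Agent.Helper69.HG.Lg

/-! NUM2, part 1: the jets of the block integrals and of the exponential coefficients. -/

open Finset Polynomial MeasureTheory

namespace Pool.Agent.Helper34.HV

open Pool.Agent.Helper69.HG Pool.Agent.Helper25.HV

/-- lower end of the block -/
noncomputable def pD (D : Dat) (i : ℕ) : ℝ := max D.lo (((i : ℝ) - 1) / D.S)

/-- upper end of the block -/
noncomputable def qD (D : Dat) (i : ℕ) : ℝ := (i : ℝ) / D.S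

/-- jet of `∫_p^q e^(-yu) du/u` -/
noncomputable def EJ2 (p q : ℝ) : V4 ℝ := ⟨Real.log (q / p), q - p, (q ^ 2 - p ^ 2) / 4, (q ^ 3 - p ^ 3) / 18⟩

theorem J_int {p q : ℝ} (hp0 : 0 < p) (hpq : p ≤ q) (hq1 : q ≤ 1) :
    J (fun y => ∫ u in p..q, Real.exp (-(y * u)) / u) (EJ2 p q) := by
  refine ⟨1, by norm_num, fun y h0 hy => ?_⟩
  have hne : ∀ u ∈ Set.uIcc p q, u ≠ 0 := by
    intro u hu
    rw [Set.uIcc_of_le hpq] at hu
    linarith [hu.1]
  have c1 : ContinuousOn (fun u : ℝ => Real.exp (-(y * u)) / u) (Set.uIcc p q) :=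
    ContinuousOn.div (by fun_prop) (by fun_prop) hne
  have c2 : ContinuousOn (fun u : ℝ => 1 / u) (Set.uIcc p q) :=
    ContinuousOn.div (by fun_prop) (by fun_prop) hne
  have i1 := c1.intervalIntegrable (μ := volume)
  have i2 := c2.intervalIntegrable (μ := volume)
  have hI : ∫ u in p..q, (1 / u - y + y ^ 2 / 2 * u - y ^ 3 / 6 * u ^ 2) = pv (EJ2 p q) y := by
    have j1 : IntervalIntegrable (fun _ : ℝ => y) volume p q := continuous_const.intervalIntegrable _ _
    have j2 : IntervalIntegrable (fun u : ℝ => y ^ 2 / 2 * u) volume p q := (by fun_prop : Continuous _).intervalIntegrable _ _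
    have j3 : IntervalIntegrable (fun u : ℝ => y ^ 3 / 6 * u ^ 2) volume p q := (by fun_prop : Continuous _).intervalIntegrable _ _
    rw [intervalIntegral.integral_sub ((i2.sub j1).add j2) j3, intervalIntegral.integral_add (i2.sub j1) j2,
      intervalIntegral.integral_sub i2 j1, integral_one_div_of_pos hp0 (hp0.trans_le hpq), intervalIntegral.integral_const,
      intervalIntegral.integral_const_mul, intervalIntegral.integral_const_mul, integral_id, integral_pow]
    unfold pv EJ2
    simp only [smul_eq_mul]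
    norm_num
    ring
  have hE : (∫ u in p..q, Real.exp (-(y * u)) / u) - pv (EJ2 p q) y =
      ∫ u in p..q, (Real.exp (-(y * u)) / u - (1 / u - y + y ^ 2 / 2 * u - y ^ 3 / 6 * u ^ 2)) := by
    have j4 : IntervalIntegrable (fun u : ℝ => 1 / u - y + y ^ 2 / 2 * u - y ^ 3 / 6 * u ^ 2) volume p q :=
      ((i2.sub (continuous_const.intervalIntegrable _ _)).add ((by fun_prop : Continuous fun u : ℝ => y ^ 2 / 2 * u).intervalIntegrable _ _)).sub
        ((by fun_prop : Continuous fun u : ℝ => y ^ 3 / 6 * u ^ 2).intervalIntegrable _ _)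
    rw [intervalIntegral.integral_sub i1 j4, hI]
  rw [hE, one_mul, ← Real.norm_eq_abs]
  have key := intervalIntegral.norm_integral_le_of_norm_le_const (a := p) (b := q) (C := y ^ 4)
    (f := fun u => Real.exp (-(y * u)) / u - (1 / u - y + y ^ 2 / 2 * u - y ^ 3 / 6 * u ^ 2)) ?_
  · refine key.trans ?_
    have h4 : 0 ≤ y ^ 4 := by positivity
    have h5 : |q - p| ≤ 1 := by
      rw [abs_of_nonneg (by linarith)]
      linarith
    exact mul_le_of_le_one_right h4 h5
  · intro u hu
    rw [Set.uIoc_of_le hpq] at hu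
    have hu0 : 0 < u := hp0.trans hu.1
    have hu1 : u ≤ 1 := hu.2.trans hq1
    have h := exp_jet (t := y * u) (by positivity) (by nlinarith)
    have e : Real.exp (-(y * u)) / u - (1 / u - y + y ^ 2 / 2 * u - y ^ 3 / 6 * u ^ 2) =
        (Real.exp (-(y * u)) - (1 - y * u + (y * u) ^ 2 / 2 - (y * u) ^ 3 / 6)) / u := by
      field_simp
    rw [e, Real.norm_eq_abs, abs_div, abs_of_pos hu0, div_le_iff₀ hu0]
    refine h.trans ?_
    have hu3 : u ^ 3 ≤ 1 := pow_le_one₀ hu0.le hu1
    have : (y * u) ^ 4 = y ^ 4 * u * u ^ 3 := by ring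
    rw [this]
    exact mul_le_of_le_one_right (by positivity) hu3

/-- jet of `EiD` -/
noncomputable def EJD (D : Dat) (i : ℕ) : V4 ℝ := EJ2 (pD D i) (qD D i)

theorem J_EiD (D : Dat) (hD : Ok D) (i : ℕ) (h1 : 1 ≤ i) (h2 : i ≤ D.B) : J (EiD D i) (EJD D i) := by
  have hS : (1:ℝ) ≤ D.S := by exact_mod_cast hD.S0
  have hS0 : (0:ℝ) < D.S := by linarith
  have hi : (1:ℝ) ≤ i := by exact_mod_cast h1
  have hlo : 0 < D.lo := lt_of_lt_of_le (by norm_num) hD.lo0
  have hp : 0 < pD D i := lt_of_lt_of_le hlo (le_max_left _ _)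
  have hpq : pD D i ≤ qD D i := by
    unfold pD qD
    refine max_le (hD.loS.trans ?_) ?_
    · gcongr
    · gcongr
      linarith
  have hq : qD D i ≤ 1 := by
    unfold qD
    rw [div_le_one hS0]
    have h3 : i ≤ D.S := by
      have := hD.BS
      omega
    exact_mod_cast h3
  exact J_int hp hpq hq

/-! ### coefficients -/

lemma polD_coeff (D : Dat) (u : ℕ → ℝ) (m : ℕ) : (polD D u).coeff m = if 1 ≤ m ∧ m ≤ D.B then u m else 0 := by
  unfold polD
  rw [finsetSum_coeff]
  simp only [coeff_C_mul, coeff_X_pow, mul_ite, mul_one, mul_zero]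
  split_ifs with h
  · rw [Finset.sum_eq_single m]
    · rw [if_pos rfl]
    · intro b _ hb
      rw [if_neg (by omega)]
    · intro hb
      rw [mem_Icc] at hb
      omega
  · refine Finset.sum_eq_zero fun j hj => ?_
    rw [mem_Icc] at hj
    rw [if_neg (by omega)]

lemma polD_zero (D : Dat) (u : ℕ → ℝ) : (polD D u).coeff 0 = 0 := by
  rw [polD_coeff, if_neg (by omega)]

/-- coefficient functions -/
noncomputable def AFD (D : Dat) (u : ℕ → ℝ → ℝ) : List (ℝ → ℝ) :=
  (List.range' 1 D.B).map fun m : ℕ => fun y => (m : ℝ) * u m y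

lemma jets_listD (D : Dat) {u : ℕ → ℝ → ℝ} {A : List (V4 ℝ)} (hA : List.Forall₂ J (AFD D u) A) (n : ℕ) :
    List.Forall₂ J (RLc (fun N => fun y => expc (polD D fun j => u j y) N) n) (RL A n) := by
  induction n with
  | zero =>
    simp only [RLc, RL]
    refine List.Forall₂.cons ?_ List.Forall₂.nil
    simp only [expc_zero]
    exact J.const 1
  | succ n ih =>
    simp only [RLc, RL]
    refine List.Forall₂.cons ?_ ih
    have h1 := (J_dot hA ih).smul (1 / ((n : ℝ) + 1))
    refine (?_ : (fun y => expc (polD D fun j => u j y) (n + 1)) = _) ▸ h1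
    funext y
    have hn : (n : ℝ) + 1 ≠ 0 := by positivity
    have e1 : (RLc (fun N => fun y => expc (polD D fun j => u j y) N) n).map (fun f => f y) =
        RLc (fun N => expc (polD D fun j => u j y) N) n := by
      clear ih h1
      induction n with
      | zero => rfl
      | succ n ih => simp only [RLc, List.map_cons, ih (by positivity)]
    have e2 : (AFD D u).map (fun f => f y) = (List.range' 1 D.B).map fun m : ℕ => (m : ℝ) * u m y := by
      unfold AFD
      rw [List.map_map]
      rfl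
    rw [e1, e2, dots_range]
    have e3 := expc_rec (polD_zero D fun j => u j y) n
    rw [eq_comm, one_div, inv_mul_eq_div, div_eq_iff hn, mul_comm (expc _ _), e3]
    have e4 : ∀ i : ℕ, (polD D fun j => u j y).coeff (i + 1) = if i < D.B then u (i + 1) y else 0 := by
      intro i
      rw [polD_coeff]
      by_cases h : i < D.B
      · rw [if_pos h, if_pos (by omega)]
      · rw [if_neg h, if_neg (by omega)]
    refine Finset.sum_subset_zero_on_sdiff ?_ ?_ ?_
    · intro i hi
      rw [mem_range] at hi ⊢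
      omega
    · intro i hi
      rw [mem_sdiff, mem_range, mem_range] at hi
      rw [e4, if_neg (by omega)]
      ring
    · intro i hi
      rw [mem_range] at hi
      rw [e4, if_pos (by omega), show 1 + i = i + 1 by ring]
      push_cast
      ring

/-- the list of jets of `[1·w₁E₁, ..., B·w_B E_B]` -/
noncomputable def AJD (D : Dat) (w : ℕ → ℝ) : List (V4 ℝ) :=
  (List.range' 1 D.B).map fun m : ℕ => (EJD D m).smul ((m : ℝ) * w m)

lemma AFD_jets (D : Dat) (hD : Ok D) (w : ℕ → ℝ) : List.Forall₂ J (AFD D fun i y => w i * EiD D i y) (AJD D w) := by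
  unfold AFD AJD
  rw [List.forall₂_map_left_iff, List.forall₂_map_right_iff, List.forall₂_same]
  intro m hm
  rw [List.mem_range'_1] at hm
  exact ((J_EiD D hD m (by omega) (by omega)).smul ((m : ℝ) * w m)).congr' fun y => by ring

/-- jets of `GD D w · 0, ..., GD D w · n` -/
noncomputable def GJ (D : Dat) (w : ℕ → ℝ) (n : ℕ) : List (V4 ℝ) := (RL (AJD D w) n).reverse

theorem GD_jets (D : Dat) (hD : Ok D) (w : ℕ → ℝ) (n : ℕ) :
    List.Forall₂ J ((List.range (n + 1)).map fun (a : ℕ) => fun y => GD D w y a) (GJ D w n) := by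
  have h := jets_listD D (AFD_jets D hD w) n
  have h1 := List.forall₂_reverse_iff.2 h
  rw [RLc_reverse] at h1
  exact h1

end Pool.Agent.Helper34.HV
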