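import Pool.Agent.Helper34.HV.Chk

/-! NUM2: the jets of `LLD`. -/

open Finset

namespace Pool.Agent.Helper34.HV

open Pool.Agent.Helper69.HG Pool.Agent.Helper25.HV

/-- constant part of a jet -/
def cV (x : V4 ℝ) : V4 ℝ := ⟨x.a, 0, 0, 0⟩

lemma forall₂_cst {F : List (ℝ → ℝ)} {A : List (V4 ℝ)} (h : List.Forall₂ J F A) :
    List.Forall₂ J (F.map fun f => fun _ : ℝ => f 0) (A.map cV) := by
  induction h with
  | nil => exact List.Forall₂.nil
  | cons a _ ih =>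
    refine List.Forall₂.cons ?_ ih
    unfold cV
    rw [← J_at_zero a]
    exact J.const _

lemma forall₂_cstC {s : ℝ} {A : List (V4 ℝ)} {X : List CR} (h : List.Forall₂ (Rc s) A X) :
    List.Forall₂ (Rc s) (A.map cV) (X.map CR.cst) := by
  induction h with
  | nil => exact List.Forall₂.nil
  | cons a _ ih => exact List.Forall₂.cons a.cst ih

section

variable (D : Dat) (hD : Ok D) (L1 L2 : List ℤ) (hl1 : L1.length = D.N1 + 1) (hl2 : L2.length = D.N2 + 1)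
    (hQ1 : ∀ n, D.Q1 n = (L1.getD n 0 : ℤ)) (hQ2 : ∀ n, D.Q2 n = (L2.getD n 0 : ℤ))

/-- jet of `LLD D y y` -/
noncomputable def LJ : V4 ℝ :=
  allO OV (GJ D (fun i => D.k1 i * D.k1 i) D.N1) (GJ D (fun i => D.k2 i * D.k2 i) D.N2)
    (GJ D (fun i => D.k1 i * D.k2 i) D.N2) (plist OV (GJ D D.k1 D.N1) L1) (plist OV (GJ D D.k2 D.N2) L2)

/-- jet of `LLD D y 0` -/
noncomputable def LJ0 : V4 ℝ :=
  allO OV (GJ D (fun i => D.k1 i * D.k1 i) D.N1) (GJ D (fun i => D.k2 i * D.k2 i) D.N2)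
    (GJ D (fun i => D.k1 i * D.k2 i) D.N2) (plist OV ((GJ D D.k1 D.N1).map cV) L1)
    (plist OV ((GJ D D.k2 D.N2).map cV) L2)

lemma forall₂_ev (w : ℕ → ℝ) (n : ℕ) (y : ℝ) :
    List.Forall₂ (fun (f : ℝ → ℝ) x => f y = x) ((List.range (n + 1)).map fun (a : ℕ) => fun y => GD D w y a)
      ((List.range (n + 1)).map fun a => GD D w y a) := by
  rw [List.forall₂_map_left_iff, List.forall₂_map_right_iff, List.forall₂_same]
  intro x _
  rfl

lemma forall₂_ev0 (w : ℕ → ℝ) (n : ℕ) (y : ℝ) :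
    List.Forall₂ (fun (f : ℝ → ℝ) x => f y = x)
      (((List.range (n + 1)).map fun (a : ℕ) => fun y => GD D w y a).map fun f => fun _ : ℝ => f 0)
      ((List.range (n + 1)).map fun a => GD D w 0 a) := by
  rw [List.map_map, List.forall₂_map_left_iff, List.forall₂_map_right_iff, List.forall₂_same]
  intro x _
  rfl

include hD hl1 hl2 hQ1 hQ2

theorem LLD_jet : J (fun y => LLD D y y) (LJ D L1 L2) := by
  have h := relJ.all (s := 1) (t := 1) (GD_jets D hD (fun i => D.k1 i * D.k1 i) D.N1)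
    (GD_jets D hD (fun i => D.k2 i * D.k2 i) D.N2) (GD_jets D hD (fun i => D.k1 i * D.k2 i) D.N2)
    (relJ.plist (s := 1) L1 (GD_jets D hD D.k1 D.N1)) (relJ.plist (s := 1) L2 (GD_jets D hD D.k2 D.N2))
  refine h.congr' fun y => ?_
  have e := (relE y).all (s := 1) (t := 1) (forall₂_ev D (fun i => D.k1 i * D.k1 i) D.N1 y)
    (forall₂_ev D (fun i => D.k2 i * D.k2 i) D.N2 y) (forall₂_ev D (fun i => D.k1 i * D.k2 i) D.N2 y)
    ((relE y).plist (s := 1) L1 (forall₂_ev D D.k1 D.N1 y)) ((relE y).plist (s := 1) L2 (forall₂_ev D D.k2 D.N2 y))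
  rw [LLD_list D L1 L2 hl1 hl2 hQ1 hQ2 y y] at e
  exact e.symm

theorem LLD_jet0 : J (fun y => LLD D y 0) (LJ0 D L1 L2) := by
  have h := relJ.all (s := 1) (t := 1) (GD_jets D hD (fun i => D.k1 i * D.k1 i) D.N1)
    (GD_jets D hD (fun i => D.k2 i * D.k2 i) D.N2) (GD_jets D hD (fun i => D.k1 i * D.k2 i) D.N2)
    (relJ.plist (s := 1) L1 (forall₂_cst (GD_jets D hD D.k1 D.N1)))
    (relJ.plist (s := 1) L2 (forall₂_cst (GD_jets D hD D.k2 D.N2)))
  refine h.congr' fun y => ?_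
  have e := (relE y).all (s := 1) (t := 1) (forall₂_ev D (fun i => D.k1 i * D.k1 i) D.N1 y)
    (forall₂_ev D (fun i => D.k2 i * D.k2 i) D.N2 y) (forall₂_ev D (fun i => D.k1 i * D.k2 i) D.N2 y)
    ((relE y).plist (s := 1) L1 (forall₂_ev0 D D.k1 D.N1 y)) ((relE y).plist (s := 1) L2 (forall₂_ev0 D D.k2 D.N2 y))
  rw [LLD_list D L1 L2 hl1 hl2 hQ1 hQ2 y 0] at e
  exact e.symm

end

/-- scale -/
def sc : ℕ := 1000000000000

lemma sc_pos : 0 < sc := by unfold sc; norm_num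

/-- the relation for the coefficient lists -/
lemma AJD_rel (D : Dat) (hS : 1 ≤ D.S) (hB : D.B ≤ 32) (k : ℕ) (hlo : D.lo = 1 / (2 ^ k * D.S)) {w : ℕ → ℝ} {wn : ℕ → ℕ}
    (hw : ∀ m, w m = (wn m : ℝ) / 100) {L : List CR} (hL : L.length = D.B) (h : chkA sc wn (eD D.S k) 1 L = true) :
    List.Forall₂ (Rc sc) (AJD D w) L := by
  have := chkA_sound (z := EJD D) D.B (fun m h1 h2 => eD_ok D k hS hlo m h1 (by omega)) hw L 1 le_rfl (by omega) h
  rwa [hL] at this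

lemma GJ_rel {D : Dat} {w : ℕ → ℝ} {L G : List CR} {n : ℕ} (h : List.Forall₂ (Rc sc) (AJD D w) L)
    (hG : G.length = n + 1) (hc : chkR sc L G = true) : List.Forall₂ (Rc sc) (GJ D w n) G.reverse :=
  List.forall₂_reverse_iff.2 (chkR_sound sc_pos h G n hG hc)

/-- the scale of the result -/
noncomputable def s8 : ℝ := (sc : ℝ) * ((sc : ℝ) * sT sc sc)

lemma s8_pos : 0 < s8 := by
  have : (0:ℝ) < sc := by exact_mod_cast sc_pos
  unfold s8 sT
  positivity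

/-- intervals -/
def ivs (X : CR) : V4 Iv := ⟨⟨X.a - X.r, X.a + X.r⟩, ⟨X.b - X.r, X.b + X.r⟩, ⟨X.c - X.r, X.c + X.r⟩, ⟨X.d - X.r, X.d + X.r⟩⟩

theorem LJ_rel (D : Dat) (L1 L2 : List ℤ) {g11 g22 g12 h1 h2 p1 p2 : List CR} {v : CR}
    (r11 : List.Forall₂ (Rc sc) (GJ D (fun i => D.k1 i * D.k1 i) D.N1) g11)
    (r22 : List.Forall₂ (Rc sc) (GJ D (fun i => D.k2 i * D.k2 i) D.N2) g22)
    (r12 : List.Forall₂ (Rc sc) (GJ D (fun i => D.k1 i * D.k2 i) D.N2) g12)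
    (r1 : List.Forall₂ (Rc sc) (GJ D D.k1 D.N1) h1) (r2 : List.Forall₂ (Rc sc) (GJ D D.k2 D.N2) h2)
    (e1 : plist OC h1 L1 = p1) (e2 : plist OC h2 L2 = p2) (e : allO OC g11 g22 g12 p1 p2 = v) :
    R4 s8 (LJ D L1 L2) (ivs v) := by
  have h := relC.all r11 r22 r12 (relC.plist L1 r1) (relC.plist L2 r2)
  rw [e1, e2, e] at h
  exact h.r4

theorem LJ0_rel (D : Dat) (L1 L2 : List ℤ) {g11 g22 g12 h1 h2 p1 p2 : List CR} {v : CR}
    (r11 : List.Forall₂ (Rc sc) (GJ D (fun i => D.k1 i * D.k1 i) D.N1) g11)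
    (r22 : List.Forall₂ (Rc sc) (GJ D (fun i => D.k2 i * D.k2 i) D.N2) g22)
    (r12 : List.Forall₂ (Rc sc) (GJ D (fun i => D.k1 i * D.k2 i) D.N2) g12)
    (r1 : List.Forall₂ (Rc sc) (GJ D D.k1 D.N1) h1) (r2 : List.Forall₂ (Rc sc) (GJ D D.k2 D.N2) h2)
    (e1 : plist OC (h1.map CR.cst) L1 = p1) (e2 : plist OC (h2.map CR.cst) L2 = p2)
    (e : allO OC g11 g22 g12 p1 p2 = v) : R4 s8 (LJ0 D L1 L2) (ivs v) := by
  have h := relC.all r11 r22 r12 (relC.plist L1 (forall₂_cstC r1)) (relC.plist L2 (forall₂_cstC r2))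
  rw [e1, e2, e] at h
  exact h.r4

end Pool.Agent.Helper34.HV
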