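import Pool.Agent.Helper34.HV.Jt
import Pool.Agent.Helper34.HV.Data
import Pool.Agent.Helper25.HV.Base

/-! NUM2. -/

open Finset

namespace Pool.Agent.Helper34.HV

open Pool.Agent.Helper69.HG Pool.Agent.Helper25.HV

/-! ### weights in hundredths -/

def wn11 (m : ℕ) : ℕ := K1L.getD m 0 * K1L.getD m 0
def wn12 (m : ℕ) : ℕ := K1L.getD m 0 * K2L.getD m 0
def wn22 (m : ℕ) : ℕ := K2L.getD m 0 * K2L.getD m 0
def wn1 (m : ℕ) : ℕ := 10 * K1L.getD m 0
def wn2 (m : ℕ) : ℕ := 10 * K2L.getD m 0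
def wm11 (m : ℕ) : ℕ := K3L.getD m 0 * K3L.getD m 0
def wm1 (m : ℕ) : ℕ := 10 * K3L.getD m 0

/-! ### the checks -/

lemma a11 : chkA sc wn11 (eD 84 1) 1 cA11 = true := by decide +kernel
lemma a12 : chkA sc wn12 (eD 84 1) 1 cA12 = true := by decide +kernel
lemma a22 : chkA sc wn22 (eD 84 1) 1 cA22 = true := by decide +kernel
lemma a1 : chkA sc wn1 (eD 84 1) 1 cA1 = true := by decide +kernel
lemma a2 : chkA sc wn2 (eD 84 1) 1 cA2 = true := by decide +kernel
lemma b11 : chkA sc wm11 (eD 1008 2) 1 cB11 = true := by decide +kernel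
lemma b1 : chkA sc wm1 (eD 1008 2) 1 cB1 = true := by decide +kernel

lemma g11 : chkR sc cA11 rG11 = true := by decide +kernel
lemma g12 : chkR sc cA12 rG12 = true := by decide +kernel
lemma g22 : chkR sc cA22 rG22 = true := by decide +kernel
lemma h1 : chkR sc cA1 rH1 = true := by decide +kernel
lemma h2 : chkR sc cA2 rH2 = true := by decide +kernel
lemma gB : chkR sc cB11 rGB = true := by decide +kernel
lemma hB : chkR sc cB1 rHB = true := by decide +kernel

/-- the list for `N = 0` -/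
def one1 : List CR := [⟨1000000000000, 0, 0, 0, 0⟩]

lemma p1y : plist OC rH1.reverse Q1L = P1y := by decide +kernel
lemma p2y : plist OC rH2.reverse Q2L = P2y := by decide +kernel
lemma p1z : plist OC (rH1.reverse.map CR.cst) Q1L = P1z := by decide +kernel
lemma p2z : plist OC (rH2.reverse.map CR.cst) Q2L = P2z := by decide +kernel
lemma pBy : plist OC rHB.reverse Q3L = PBy := by decide +kernel
lemma pBz : plist OC (rHB.reverse.map CR.cst) Q3L = PBz := by decide +kernel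
lemma pcy : plist OC one1 [1] = P2B := by decide +kernel
lemma pcz : plist OC (one1.map CR.cst) [1] = P2Bz := by decide +kernel

lemma kA : allO OC rG11.reverse rG22.reverse rG12.reverse P1y P2y = vA := by decide +kernel
lemma kAz : allO OC rG11.reverse rG22.reverse rG12.reverse P1z P2z = vAz := by decide +kernel
lemma kB : allO OC rGB.reverse one1 one1 PBy P2B = vB := by decide +kernel
lemma kBz : allO OC rGB.reverse one1 one1 PBz P2Bz = vBz := by decide +kernel

lemma kF : fin2 (ivs vA) (ivs vAz) (ivs vB) (ivs vBz) = true := by decide +kernel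

/-! ### the lists of `dA` -/

lemma loA : dA.lo = 1 / (2 ^ 1 * dA.S) := by unfold dA; norm_num
lemma loB : dB.lo = 1 / (2 ^ 2 * dB.S) := by unfold dB; norm_num

lemma A11 : List.Forall₂ (Rc sc) (GJ dA (fun i => dA.k1 i * dA.k1 i) dA.N1) rG11.reverse :=
  GJ_rel (AJD_rel dA (by decide) (by decide) 1 loA (wn := wn11) (fun m => by
    show ((K1L.getD m 0 : ℕ) : ℝ) / 10 * (((K1L.getD m 0 : ℕ) : ℝ) / 10) = _
    unfold wn11; push_cast; ring) (by decide) a11) (by decide) g11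

lemma A12 : List.Forall₂ (Rc sc) (GJ dA (fun i => dA.k1 i * dA.k2 i) dA.N2) rG12.reverse :=
  GJ_rel (AJD_rel dA (by decide) (by decide) 1 loA (wn := wn12) (fun m => by
    show ((K1L.getD m 0 : ℕ) : ℝ) / 10 * (((K2L.getD m 0 : ℕ) : ℝ) / 10) = _
    unfold wn12; push_cast; ring) (by decide) a12) (by decide) g12

lemma A22 : List.Forall₂ (Rc sc) (GJ dA (fun i => dA.k2 i * dA.k2 i) dA.N2) rG22.reverse :=
  GJ_rel (AJD_rel dA (by decide) (by decide) 1 loA (wn := wn22) (fun m => by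
    show ((K2L.getD m 0 : ℕ) : ℝ) / 10 * (((K2L.getD m 0 : ℕ) : ℝ) / 10) = _
    unfold wn22; push_cast; ring) (by decide) a22) (by decide) g22

lemma A1 : List.Forall₂ (Rc sc) (GJ dA dA.k1 dA.N1) rH1.reverse :=
  GJ_rel (AJD_rel dA (by decide) (by decide) 1 loA (wn := wn1) (fun m => by
    show ((K1L.getD m 0 : ℕ) : ℝ) / 10 = _
    unfold wn1; push_cast; ring) (by decide) a1) (by decide) h1

lemma A2 : List.Forall₂ (Rc sc) (GJ dA dA.k2 dA.N2) rH2.reverse :=
  GJ_rel (AJD_rel dA (by decide) (by decide) 1 loA (wn := wn2) (fun m => by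
    show ((K2L.getD m 0 : ℕ) : ℝ) / 10 = _
    unfold wn2; push_cast; ring) (by decide) a2) (by decide) h2

/-! ### the lists of `dB` -/

lemma B11 : List.Forall₂ (Rc sc) (GJ dB (fun i => dB.k1 i * dB.k1 i) dB.N1) rGB.reverse :=
  GJ_rel (AJD_rel dB (by decide) (by decide) 2 loB (wn := wm11) (fun m => by
    show ((K3L.getD m 0 : ℕ) : ℝ) / 10 * (((K3L.getD m 0 : ℕ) : ℝ) / 10) = _
    unfold wm11; push_cast; ring) (by decide) b11) (by decide) gB

lemma B1 : List.Forall₂ (Rc sc) (GJ dB dB.k1 dB.N1) rHB.reverse :=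
  GJ_rel (AJD_rel dB (by decide) (by decide) 2 loB (wn := wm1) (fun m => by
    show ((K3L.getD m 0 : ℕ) : ℝ) / 10 = _
    unfold wm1; push_cast; ring) (by decide) b1) (by decide) hB

lemma GJ_zero (D : Dat) (w : ℕ → ℝ) : List.Forall₂ (Rc sc) (GJ D w 0) one1 := by
  have e : GJ D w 0 = [⟨1, 0, 0, 0⟩] := rfl
  rw [e]
  refine List.Forall₂.cons ?_ List.Forall₂.nil
  simp [Rc, sc]

lemma Q2B (n : ℕ) : dB.Q2 n = (([1] : List ℤ).getD n 0 : ℤ) := by
  show (if n = 0 then (1:ℝ) else 0) = _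
  by_cases h : n = 0
  · subst h; simp
  · rw [if_neg h]
    obtain ⟨m, hm⟩ := Nat.exists_eq_succ_of_ne_zero h
    subst hm
    simp

/-- block NUM2 -/
theorem num2 : NUM2 := by
  have q1 : ∀ n, dA.Q1 n = (Q1L.getD n 0 : ℤ) := fun n => rfl
  have q2 : ∀ n, dA.Q2 n = (Q2L.getD n 0 : ℤ) := fun n => rfl
  have q3 : ∀ n, dB.Q1 n = (Q3L.getD n 0 : ℤ) := fun n => rfl
  exact num2_of (LLD_jet dA okA Q1L Q2L (by decide) (by decide) q1 q2)
    (LLD_jet0 dA okA Q1L Q2L (by decide) (by decide) q1 q2)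
    (LLD_jet dB okB Q3L [1] (by decide) (by decide) q3 Q2B)
    (LLD_jet0 dB okB Q3L [1] (by decide) (by decide) q3 Q2B) s8_pos s8_pos
    (LJ_rel dA Q1L Q2L A11 A22 A12 A1 A2 p1y p2y kA)
    (LJ0_rel dA Q1L Q2L A11 A22 A12 A1 A2 p1z p2z kAz)
    (LJ_rel dB Q3L [1] B11 (GJ_zero dB _) (GJ_zero dB _) B1 (GJ_zero dB _) pBy pcy kB)
    (LJ0_rel dB Q3L [1] B11 (GJ_zero dB _) (GJ_zero dB _) B1 (GJ_zero dB _) pBz pcz kBz) kF

end Pool.Agent.Helper34.HV
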