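import Pool.Agent.Helper25.HV.Base

/-!
# HV, block RD2, part 1: one kind of primes

The polynomial of all tuples of primes of one kind; its coefficient at a squarefree number is the weight `wtD`.
-/

open Finset MeasureTheory

namespace Pool.Agent.Helper34.HV

open Pool.Agent.Helper69.HG Pool.Agent.Helper25.HV

/-- the tuples with product `n` -/
noncomputable def SSD (D : Dat) (T : ℝ) (k n : ℕ) : Finset (Fin k → ℕ) :=
  (Fintype.piFinset (fun _ : Fin k => AAD D T)).filter (fun p => ∏ j, p j = n)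

/-- the coefficient of `n` in `RFf` -/
noncomputable def cnD (D : Dat) (N : ℕ) (k Q : ℕ → ℝ) (T : ℝ) (n : ℕ) : ℝ :=
  ∑ m ∈ Finset.range (N + 1), (1 / (m.factorial : ℝ)) *
    ∑ p ∈ SSD D T m n, (∏ j, k (ixD D T (p j))) * Q (∑ j, ixD D T (p j))

theorem mem_SSD {D : Dat} {T : ℝ} {k n : ℕ} {p : Fin k → ℕ} :
    p ∈ SSD D T k n ↔ (∀ j, p j ∈ AAD D T) ∧ ∏ j, p j = n := by
  unfold SSD
  rw [Finset.mem_filter, Fintype.mem_piFinset]

/-- powers of natural numbers: products -/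
theorem cpow_prod34 (s : ℂ) {ι : Type*} (S : Finset ι) (f : ι → ℕ) :
    ((∏ j ∈ S, f j : ℕ) : ℂ) ^ s = ∏ j ∈ S, (f j : ℂ) ^ s := by
  classical
  induction S using Finset.induction_on with
  | empty => simp
  | insert a S ha ih =>
    rw [Finset.prod_insert ha, Finset.prod_insert ha, ← ih, Nat.cast_mul,
      Complex.natCast_mul_natCast_cpow]

section

variable {D : Dat} (hD : Ok D) {T : ℝ} (hT : 1 < T)
include hD hT

/-- the product of a tuple of total index at most `N` -/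
theorem prod_leD {N k : ℕ} {p : Fin k → ℕ} (hp : ∀ j, p j ∈ AAD D T)
    (h : ∑ j, ixD D T (p j) ≤ N) : ((∏ j, p j : ℕ) : ℝ) ≤ T ^ ((N : ℝ) / D.S) := by
  rw [Nat.cast_prod]
  have h1 : ∏ j, (p j : ℝ) ≤ ∏ j, T ^ ((ixD D T (p j) : ℝ) / D.S) :=
    Finset.prod_le_prod (fun j _ => by positivity) fun j _ =>
      le_ixD hD hT ((mem_AAD hD hT).1 (hp j)).pos
  refine h1.trans ?_
  rw [← Real.rpow_sum_of_pos (by linarith), ← Finset.sum_div]
  refine Real.rpow_le_rpow_of_exponent_le hT.le ?_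
  have h2 : (∑ j, (ixD D T (p j) : ℝ)) ≤ N := by exact_mod_cast h
  exact div_le_div_of_nonneg_right h2 hD.Spos.le

theorem prod_posD {k : ℕ} {p : Fin k → ℕ} (hp : ∀ j, p j ∈ AAD D T) : 1 ≤ ∏ j, p j :=
  Nat.succ_le_of_lt (Finset.prod_pos fun j _ => ((mem_AAD hD hT).1 (hp j)).pos)

/-- the sum over the tuples of primes -/
theorem tuple_sumD {n : ℕ} (f : (Fin n → ℕ) → ℂ) (t : ℝ) :
    (∑ i ∈ Fintype.piFinset (fun _ : Fin n => Finset.Icc 1 D.B), f i * ∏ j, PbD D T (i j) t) =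
    ∑ p ∈ Fintype.piFinset (fun _ : Fin n => AAD D T), f (fun j => ixD D T (p j)) *
      ((∏ j, p j : ℕ) : ℂ) ^ (-(1 / 2 + Complex.I * t) : ℂ) := by
  classical
  have hmaps : ∀ p ∈ Fintype.piFinset (fun _ : Fin n => AAD D T), (fun j => ixD D T (p j)) ∈
      Fintype.piFinset (fun _ : Fin n => Finset.Icc 1 D.B) := by
    intro p hp
    rw [Fintype.mem_piFinset] at hp ⊢
    intro j
    have h1 := (mem_AAD hD hT).1 (hp j)
    rw [Finset.mem_Icc]
    exact ⟨h1.ix_pos hD hT, h1.2.2⟩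
  rw [← Finset.sum_fiberwise_of_maps_to hmaps]
  refine Finset.sum_congr rfl fun i hi => ?_
  unfold PbD
  rw [Finset.prod_univ_sum, Finset.mul_sum]
  have hset : (Fintype.piFinset (fun _ : Fin n => AAD D T)).filter (fun p => (fun j => ixD D T (p j)) = i) =
      Fintype.piFinset (fun j => (AAD D T).filter (fun p => ixD D T p = i j)) := by
    ext p
    rw [Finset.mem_filter, Fintype.mem_piFinset, Fintype.mem_piFinset]
    constructor
    · rintro ⟨h1, h2⟩ j
      rw [Finset.mem_filter]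
      exact ⟨h1 j, congrFun h2 j⟩
    · intro h1
      exact ⟨fun j => (Finset.mem_filter.1 (h1 j)).1, funext fun j => (Finset.mem_filter.1 (h1 j)).2⟩
  rw [hset]
  refine Finset.sum_congr rfl fun p hp => ?_
  have hp' : (fun j => ixD D T (p j)) = i := by
    rw [Fintype.mem_piFinset] at hp
    funext j
    exact (Finset.mem_filter.1 (hp j)).2
  rw [cpow_prod34, hp']

/-- **The expansion of `RFf`.** -/
theorem RFf_eqD {N : ℕ} {k Q : ℕ → ℝ} (hQ : ∀ n, N < n → Q n = 0) (t : ℝ) :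
    RFf D N k Q T t = DP ⌊T ^ ((N : ℝ) / D.S)⌋₊ (fun n => (cnD D N k Q T n : ℂ)) t := by
  classical
  unfold RFf DP cnD
  have h1 : ∀ m ∈ Finset.range (N + 1),
      ((1 / m.factorial : ℝ) : ℂ) *
        ∑ i ∈ Fintype.piFinset (fun _ : Fin m => Finset.Icc 1 D.B),
          (((∏ j, k (i j)) * Q (∑ j, i j) : ℝ) : ℂ) * ∏ j, PbD D T (i j) t =
      ∑ M ∈ Finset.Icc 1 ⌊T ^ ((N : ℝ) / D.S)⌋₊, ((1 / m.factorial : ℝ) : ℂ) *
        (∑ p ∈ SSD D T m M, (((∏ j, k (ixD D T (p j))) * Q (∑ j, ixD D T (p j)) : ℝ) : ℂ)) *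
          (M : ℂ) ^ (-(1 / 2 + Complex.I * t) : ℂ) := by
    intro m _
    rw [tuple_sumD hD hT (fun i => (((∏ j, k (i j)) * Q (∑ j, i j) : ℝ) : ℂ)) t]
    have h2 : ∑ p ∈ Fintype.piFinset (fun _ : Fin m => AAD D T),
        (((∏ j, k (ixD D T (p j))) * Q (∑ j, ixD D T (p j)) : ℝ) : ℂ) *
        ((∏ j, p j : ℕ) : ℂ) ^ (-(1 / 2 + Complex.I * t) : ℂ) =
        ∑ p ∈ (Fintype.piFinset (fun _ : Fin m => AAD D T)).filter
            (fun p => ∏ j, p j ≤ ⌊T ^ ((N : ℝ) / D.S)⌋₊),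
          (((∏ j, k (ixD D T (p j))) * Q (∑ j, ixD D T (p j)) : ℝ) : ℂ) *
            ((∏ j, p j : ℕ) : ℂ) ^ (-(1 / 2 + Complex.I * t) : ℂ) := by
      symm
      refine Finset.sum_subset (Finset.filter_subset _ _) fun p hp hp2 => ?_
      have h3 : N < ∑ j, ixD D T (p j) := by
        by_contra h4
        apply hp2
        rw [Finset.mem_filter]
        exact ⟨hp, Nat.le_floor (prod_leD hD hT (Fintype.mem_piFinset.1 hp) (not_lt.1 h4))⟩
      rw [hQ _ h3]
      simp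
    have hmaps : ∀ p ∈ (Fintype.piFinset (fun _ : Fin m => AAD D T)).filter
        (fun p => ∏ j, p j ≤ ⌊T ^ ((N : ℝ) / D.S)⌋₊),
        (∏ j, p j) ∈ Finset.Icc 1 ⌊T ^ ((N : ℝ) / D.S)⌋₊ := by
      intro p hp
      rw [Finset.mem_filter] at hp
      exact Finset.mem_Icc.2 ⟨prod_posD hD hT (Fintype.mem_piFinset.1 hp.1), hp.2⟩
    rw [h2, ← Finset.sum_fiberwise_of_maps_to hmaps, Finset.mul_sum]
    refine Finset.sum_congr rfl fun M hM => ?_
    rw [mul_assoc, Finset.sum_mul]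
    congr 1
    have h3 : ((Fintype.piFinset (fun _ : Fin m => AAD D T)).filter
        (fun p => ∏ j, p j ≤ ⌊T ^ ((N : ℝ) / D.S)⌋₊)).filter
        (fun p => ∏ j, p j = M) = SSD D T m M := by
      ext p
      rw [Finset.mem_filter, Finset.mem_filter, SSD, Finset.mem_filter]
      constructor
      · rintro ⟨⟨h4, -⟩, h5⟩
        exact ⟨h4, h5⟩
      · rintro ⟨h4, h5⟩
        exact ⟨⟨h4, by rw [h5]; exact (Finset.mem_Icc.1 hM).2⟩, h5⟩
    rw [h3]
    refine Finset.sum_congr rfl fun p hp => ?_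
    rw [(mem_SSD.1 hp).2]
  rw [Finset.sum_congr rfl h1, Finset.sum_comm]
  refine Finset.sum_congr rfl fun M _ => ?_
  rw [← Finset.sum_mul]
  congr 1
  push_cast
  rfl

/-- the prime factors of the product of a tuple -/
theorem primeFactors_SSD {k n : ℕ} {p : Fin k → ℕ} (hp : p ∈ SSD D T k n) :
    n.primeFactors = Finset.univ.image p := by
  obtain ⟨h1, h2⟩ := mem_SSD.1 hp
  ext q
  rw [Finset.mem_image, ← h2, Nat.mem_primeFactors]
  constructor
  · rintro ⟨hq, hqd, -⟩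
    obtain ⟨j, -, hj⟩ := (Prime.dvd_finsetProd_iff hq.prime _).1 hqd
    exact ⟨j, Finset.mem_univ _, ((Nat.prime_dvd_prime_iff_eq hq ((mem_AAD hD hT).1 (h1 j)).1).1 hj).symm⟩
  · rintro ⟨j, -, rfl⟩
    exact ⟨((mem_AAD hD hT).1 (h1 j)).1, Finset.dvd_prod_of_mem _ (Finset.mem_univ j),
      Nat.one_le_iff_ne_zero.1 (prod_posD hD hT h1)⟩

theorem inj_SSD {k n : ℕ} (hn : Squarefree n) {p : Fin k → ℕ} (hp : p ∈ SSD D T k n) :
    Function.Injective p := by
  obtain ⟨h1, h2⟩ := mem_SSD.1 hp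
  intro i j hij
  by_contra hne
  have h3 : p i * p i ∣ n := by
    rw [← h2]
    have h4 : p i * p j ∣ ∏ l, p l := by
      rw [← Finset.mul_prod_erase Finset.univ p (Finset.mem_univ i)]
      refine mul_dvd_mul_left _ (Finset.dvd_prod_of_mem _ ?_)
      exact Finset.mem_erase.2 ⟨fun h => hne h.symm, Finset.mem_univ _⟩
    rwa [← hij] at h4
  have h4 := hn _ h3
  have h5 := ((mem_AAD hD hT).1 (h1 i)).1
  exact h5.not_isUnit h4

/-- the number of tuples for squarefree `n` -/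
theorem card_SSD {n : ℕ} (hn : Squarefree n) (h : ∀ p ∈ n.primeFactors, p ∈ AAD D T) :
    (SSD D T n.primeFactors.card n).card = n.primeFactors.card.factorial := by
  classical
  let F : (Fin n.primeFactors.card ≃ n.primeFactors) → (Fin n.primeFactors.card → ℕ) :=
    fun e j => (e j : ℕ)
  have hF : Function.Injective F := by
    intro e e' hee
    ext j
    exact congrFun hee j
  have hS : SSD D T n.primeFactors.card n = Finset.univ.image F := by
    ext p
    rw [Finset.mem_image]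
    constructor
    · intro hp
      have h1 := primeFactors_SSD hD hT hp
      have h2 := inj_SSD hD hT hn hp
      have h3 : ∀ j, p j ∈ n.primeFactors := fun j => by
        rw [h1]
        exact Finset.mem_image_of_mem _ (Finset.mem_univ j)
      refine ⟨Equiv.ofBijective (fun j => ⟨p j, h3 j⟩) ⟨?_, ?_⟩, Finset.mem_univ _, ?_⟩
      · intro i j hij
        exact h2 (congrArg Subtype.val hij)
      · rintro ⟨q, hq⟩
        rw [h1, Finset.mem_image] at hq
        obtain ⟨j, -, hj⟩ := hq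
        exact ⟨j, Subtype.ext hj⟩
      · rfl
    · rintro ⟨e, -, rfl⟩
      refine mem_SSD.2 ⟨fun j => h _ (e j).2, ?_⟩
      have h1 : ∏ j, F e j = ∏ q : n.primeFactors, (q : ℕ) := Equiv.prod_comp e (fun q => (q : ℕ))
      rw [h1, Finset.prod_coe_sort n.primeFactors (fun q => q)]
      exact Nat.prod_primeFactors_of_squarefree hn
  rw [hS, Finset.card_image_of_injective _ hF, Finset.card_univ, Fintype.card_equiv
    (Fintype.equivOfCardEq (by simp)), Fintype.card_fin]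

theorem cnD_squarefree {N : ℕ} {k Q : ℕ → ℝ} (hQ : ∀ n, N < n → Q n = 0) {n : ℕ} (hn : Squarefree n)
    (h : ∀ p ∈ n.primeFactors, Adm D T p) : cnD D N k Q T n = wtD D T k Q n := by
  classical
  have hP : ∀ p ∈ n.primeFactors, p ∈ AAD D T := fun p hp => (mem_AAD hD hT).2 (h p hp)
  have hix : ∀ {m : ℕ} {p : Fin m → ℕ}, p ∈ SSD D T m n →
      (∏ j, k (ixD D T (p j))) * Q (∑ j, ixD D T (p j)) = wtD D T k Q n := by
    intro m p hp
    unfold wtD
    rw [primeFactors_SSD hD hT hp, Finset.sum_image fun i _ j _ hij => inj_SSD hD hT hn hp hij,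
      Finset.prod_image fun i _ j _ hij => inj_SSD hD hT hn hp hij]
  have hcard : ∀ {m : ℕ} {p : Fin m → ℕ}, p ∈ SSD D T m n → m = n.primeFactors.card := by
    intro m p hp
    rw [primeFactors_SSD hD hT hp, Finset.card_image_of_injective _ (inj_SSD hD hT hn hp), Finset.card_univ,
      Fintype.card_fin]
  have hterm : ∀ m, ∑ p ∈ SSD D T m n, (∏ j, k (ixD D T (p j))) * Q (∑ j, ixD D T (p j)) =
      if m = n.primeFactors.card then (m.factorial : ℝ) * wtD D T k Q n else 0 := by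
    intro m
    split_ifs with hm
    · subst hm
      rw [Finset.sum_congr rfl (fun p hp => hix hp), Finset.sum_const, card_SSD hD hT hn hP,
        nsmul_eq_mul]
    · refine Finset.sum_eq_zero fun p hp => ?_
      exact absurd (hcard hp) hm
  unfold cnD
  simp only [hterm, mul_ite, mul_zero]
  rw [Finset.sum_ite_eq' (Finset.range (N + 1))]
  by_cases hk : n.primeFactors.card ∈ Finset.range (N + 1)
  · rw [if_pos hk]
    have h1 : (n.primeFactors.card.factorial : ℝ) ≠ 0 := by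
      exact_mod_cast Nat.factorial_ne_zero _
    field_simp
  · rw [if_neg hk]
    have h1 : N < n.primeFactors.card := by
      rw [Finset.mem_range] at hk
      omega
    have h2 : N < ∑ p ∈ n.primeFactors, ixD D T p := by
      refine lt_of_lt_of_le h1 ?_
      rw [Finset.card_eq_sum_ones]
      exact Finset.sum_le_sum fun p hp => (h p hp).ix_pos hD hT
    unfold wtD
    rw [hQ _ h2, mul_zero]

theorem card_SSD_le (k n : ℕ) : (SSD D T k n).card ≤ k ^ k := by
  classical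
  rcases (SSD D T k n).eq_empty_or_nonempty with h | ⟨p₀, hp₀⟩
  · rw [h, Finset.card_empty]
    exact Nat.zero_le _
  · have h1 : n.primeFactors.card ≤ k := by
      rw [primeFactors_SSD hD hT hp₀]
      refine Finset.card_image_le.trans ?_
      rw [Finset.card_univ, Fintype.card_fin]
    have h2 : SSD D T k n ⊆ Fintype.piFinset (fun _ : Fin k => n.primeFactors) := by
      intro p hp
      rw [Fintype.mem_piFinset]
      intro j
      rw [primeFactors_SSD hD hT hp]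
      exact Finset.mem_image_of_mem _ (Finset.mem_univ j)
    refine (Finset.card_le_card h2).trans ?_
    rw [Fintype.card_piFinset, Finset.prod_const, Finset.card_univ, Fintype.card_fin]
    exact Nat.pow_le_pow_left h1 k

theorem cnD_bound {N : ℕ} {k Q : ℕ → ℝ} (hk : ∀ i, 0 ≤ k i ∧ k i ≤ 2) {C₁ : ℝ} (hC₁ : ∀ n, |Q n| ≤ C₁) (n : ℕ) :
    |cnD D N k Q T n| ≤ ∑ m ∈ Finset.range (N + 1), (1 / (m.factorial : ℝ)) * ((m : ℝ) ^ m * (2 ^ m * C₁)) := by
  have hC0 : 0 ≤ C₁ := (abs_nonneg _).trans (hC₁ 0)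
  unfold cnD
  refine (Finset.abs_sum_le_sum_abs _ _).trans (Finset.sum_le_sum fun m _ => ?_)
  have h1 : 0 ≤ 1 / (m.factorial : ℝ) := by positivity
  rw [abs_mul, abs_of_nonneg h1]
  refine mul_le_mul_of_nonneg_left ?_ h1
  refine (Finset.abs_sum_le_sum_abs _ _).trans ?_
  have h3 : ∀ p ∈ SSD D T m n, |(∏ j, k (ixD D T (p j))) * Q (∑ j, ixD D T (p j))| ≤ 2 ^ m * C₁ := by
    intro p _
    have h4 : 0 ≤ ∏ j, k (ixD D T (p j)) := Finset.prod_nonneg fun j _ => (hk _).1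
    have h5 : ∏ j, k (ixD D T (p j)) ≤ 2 ^ m := by
      calc ∏ j, k (ixD D T (p j)) ≤ ∏ _j : Fin m, (2 : ℝ) :=
            Finset.prod_le_prod (fun j _ => (hk _).1) fun j _ => (hk _).2
        _ = 2 ^ m := by rw [Finset.prod_const, Finset.card_univ, Fintype.card_fin]
    rw [abs_mul, abs_of_nonneg h4]
    exact mul_le_mul h5 (hC₁ _) (abs_nonneg _) (by positivity)
  refine (Finset.sum_le_sum h3).trans ?_
  rw [Finset.sum_const, nsmul_eq_mul]
  have h2 : ((SSD D T m n).card : ℝ) ≤ (m : ℝ) ^ m := by exact_mod_cast card_SSD_le hD hT m n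
  exact mul_le_mul_of_nonneg_right h2 (by positivity)

theorem cnD_supp {N : ℕ} {k Q : ℕ → ℝ} (hQ : ∀ n, N < n → Q n = 0) {n : ℕ} (h : cnD D N k Q T n ≠ 0) :
    n ≠ 0 ∧ (n : ℝ) ≤ T ^ ((N : ℝ) / D.S) ∧ ∀ p ∈ n.primeFactors, Adm D T p := by
  unfold cnD at h
  obtain ⟨m, -, hm⟩ := Finset.exists_ne_zero_of_sum_ne_zero h
  obtain ⟨p, hp, hpne⟩ := Finset.exists_ne_zero_of_sum_ne_zero (right_ne_zero_of_mul hm)
  obtain ⟨h1, h2⟩ := mem_SSD.1 hp
  have h3 : ∑ j, ixD D T (p j) ≤ N := by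
    by_contra hc
    exact hpne (by rw [hQ _ (not_le.1 hc), mul_zero])
  refine ⟨?_, ?_, fun q hq => ?_⟩
  · have h4 := prod_posD hD hT h1
    rw [h2] at h4
    omega
  · rw [← h2]
    exact prod_leD hD hT h1 h3
  · rw [primeFactors_SSD hD hT hp, Finset.mem_image] at hq
    obtain ⟨j, -, rfl⟩ := hq
    exact (mem_AAD hD hT).1 (h1 j)

end

/-- **One kind of primes.** -/
theorem oneKind {D : Dat} (hD : Ok D) {N : ℕ} {k Q : ℕ → ℝ} (hk : ∀ i, 0 ≤ k i ∧ k i ≤ 2) (hQ : ∀ n, N < n → Q n = 0) :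
    ∃ C : ℝ, 1 ≤ C ∧ ∀ T : ℝ, 1 < T → ∃ c : ℕ → ℝ, (∀ n, |c n| ≤ C) ∧
      (∀ n, c n ≠ 0 → n ≠ 0 ∧ (n : ℝ) ≤ T ^ ((N : ℝ) / D.S) ∧ ∀ p ∈ n.primeFactors, Adm D T p) ∧
      (∀ n, Squarefree n → (∀ p ∈ n.primeFactors, Adm D T p) → c n = wtD D T k Q n) ∧
      ∀ t : ℝ, RFf D N k Q T t = DP ⌊T ^ ((N : ℝ) / D.S)⌋₊ (fun n => (c n : ℂ)) t := by
  obtain ⟨C₁, hC₁, hb⟩ := Q_bd hQ
  have h0 : 0 ≤ ∑ m ∈ Finset.range (N + 1), (1 / (m.factorial : ℝ)) * ((m : ℝ) ^ m * (2 ^ m * C₁)) :=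
    Finset.sum_nonneg fun m _ => by positivity
  refine ⟨1 + ∑ m ∈ Finset.range (N + 1), (1 / (m.factorial : ℝ)) * ((m : ℝ) ^ m * (2 ^ m * C₁)), by linarith,
    fun T hT => ⟨cnD D N k Q T, fun n => ?_, fun n hn => cnD_supp hD hT hQ hn,
      fun n h1 h2 => cnD_squarefree hD hT hQ h1 h2, fun t => RFf_eqD hD hT hQ t⟩⟩
  have := cnD_bound hD hT (N := N) hk hb n
  linarith

end Pool.Agent.Helper34.HV
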