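import Pool.Agent.Helper34.HV.Alg

/-! NUM2: the list computation gives `LLD`. -/

open Finset

namespace Pool.Agent.Helper34.HV

open Pool.Agent.Helper69.HG Pool.Agent.Helper25.HV

lemma tail_range (f : ℕ → ℝ) (c n : ℕ) :
    ((List.range' c (n - c)).map f).tail = (List.range' (c + 1) (n - (c + 1))).map f := by
  by_cases h : n - c = 0
  · rw [h, show n - (c + 1) = 0 by omega]
    simp
  · obtain ⟨m, hm⟩ := Nat.exists_eq_succ_of_ne_zero h
    rw [hm, show n - (c + 1) = m by omega, List.range'_succ, List.map_cons, List.tail_cons]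

/-- `∑_i f(i) p(b+i) p(c+i)` -/
def TT (n : ℕ) (f p : ℕ → ℝ) (b c : ℕ) : ℝ := ∑ i ∈ range n, f i * (p (b + i) * p (c + i))

lemma TT_symm (n : ℕ) (f p : ℕ → ℝ) (b c : ℕ) : TT n f p b c = TT n f p c b := by
  unfold TT
  refine Finset.sum_congr rfl fun i _ => ?_
  rw [mul_comm (p (b + i))]

lemma dot3_full (n : ℕ) (f p : ℕ → ℝ) (hp : ∀ i, n ≤ i → p i = 0) (b c : ℕ) :
    dot3 OR ((List.range' 0 n).map f) ((List.range' b (n - b)).map p) ((List.range' c (n - c)).map p) = TT n f p b c := by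
  rw [dot3_range]
  unfold TT
  simp only [zero_add]
  refine Finset.sum_subset (fun i hi => ?_) fun i hi hi' => ?_
  · rw [mem_range] at hi ⊢
    omega
  · rw [mem_range] at hi hi'
    rcases (by omega : n ≤ b + i ∨ n ≤ c + i) with h | h
    · rw [hp _ h]; ring
    · rw [hp _ h]; ring

section

variable (n1 n2 : ℕ) (f11 f22 g p1 p2 : ℕ → ℝ) (h1 : ∀ i, n1 ≤ i → p1 i = 0) (h2 : ∀ i, n2 ≤ i → p2 i = 0)
include h1 h2

lemma row_range (b : ℕ) (k c : ℕ) :
    rowO OR ((List.range' 0 n1).map f11) ((List.range' 0 n2).map f22) ((List.range' b (n1 - b)).map p1)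
      ((List.range' b (n2 - b)).map p2) ((List.range' c k).map g) ((List.range' c (n1 - c)).map p1)
      ((List.range' c (n2 - c)).map p2) =
    ∑ i ∈ range k, g (c + i) * (TT n1 f11 p1 b (c + i) * TT n2 f22 p2 b (c + i)) := by
  induction k generalizing c with
  | zero => simp [rowO, OR]
  | succ k ih =>
    rw [List.range'_succ, List.map_cons, Finset.sum_range_succ']
    simp only [rowO]
    rw [tail_range, tail_range, ih, dot3_full n1 f11 p1 h1, dot3_full n2 f22 p2 h2]
    simp only [OR, add_zero]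
    rw [add_comm]
    congr 1
    refine Finset.sum_congr rfl fun i _ => ?_
    rw [show c + 1 + i = c + (i + 1) by ring]

lemma all_range (k b : ℕ) :
    allO OR ((List.range' 0 n1).map f11) ((List.range' 0 n2).map f22) ((List.range' b k).map g)
      ((List.range' b (n1 - b)).map p1) ((List.range' b (n2 - b)).map p2) =
    ∑ i ∈ range k, ∑ j ∈ range k, g (b + i) * (g (b + j) *
      (TT n1 f11 p1 (b + i) (b + j) * TT n2 f22 p2 (b + i) (b + j))) := by
  induction k generalizing b with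
  | zero => simp [allO, OR]
  | succ k ih =>
    rw [List.range'_succ, List.map_cons]
    simp only [allO]
    rw [tail_range, tail_range, ih, dot3_full n1 f11 p1 h1, dot3_full n2 f22 p2 h2,
      row_range n1 n2 f11 f22 g p1 p2 h1 h2]
    have e1 : ∀ i : ℕ, b + 1 + i = b + (i + 1) := fun i => by ring
    simp only [e1]
    rw [Finset.sum_range_succ' (fun i => ∑ j ∈ range (k + 1), g (b + i) * (g (b + j) *
      (TT n1 f11 p1 (b + i) (b + j) * TT n2 f22 p2 (b + i) (b + j)))) k]
    simp only [Finset.sum_range_succ' _ k, add_zero]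
    rw [Finset.sum_add_distrib]
    have e2 : ∑ x ∈ range k, g (b + (x + 1)) * (g b * (TT n1 f11 p1 (b + (x + 1)) b * TT n2 f22 p2 (b + (x + 1)) b)) =
        g b * ∑ x ∈ range k, g (b + (x + 1)) * (TT n1 f11 p1 b (b + (x + 1)) * TT n2 f22 p2 b (b + (x + 1))) := by
      rw [Finset.mul_sum]
      refine Finset.sum_congr rfl fun i _ => ?_
      rw [TT_symm n1 f11 p1 _ b, TT_symm n2 f22 p2 _ b]
      ring
    have e3 : ∑ j ∈ range k, g b * (g (b + (j + 1)) * (TT n1 f11 p1 b (b + (j + 1)) * TT n2 f22 p2 b (b + (j + 1)))) =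
        g b * ∑ x ∈ range k, g (b + (x + 1)) * (TT n1 f11 p1 b (b + (x + 1)) * TT n2 f22 p2 b (b + (x + 1))) := by
      rw [Finset.mul_sum]
    rw [e2, e3]
    simp only [OR]
    push_cast
    ring

end

/-- `LLD` from lists -/
theorem LLD_list (D : Dat) (L1 L2 : List ℤ) (hl1 : L1.length = D.N1 + 1) (hl2 : L2.length = D.N2 + 1)
    (hQ1 : ∀ n, D.Q1 n = (L1.getD n 0 : ℤ)) (hQ2 : ∀ n, D.Q2 n = (L2.getD n 0 : ℤ)) (y z : ℝ) :
    allO OR ((List.range (D.N1 + 1)).map fun a => GD D (fun i => D.k1 i * D.k1 i) y a)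
      ((List.range (D.N2 + 1)).map fun a => GD D (fun i => D.k2 i * D.k2 i) y a)
      ((List.range (D.N2 + 1)).map fun a => GD D (fun i => D.k1 i * D.k2 i) y a)
      (plist OR ((List.range (D.N1 + 1)).map fun a => GD D D.k1 z a) L1)
      (plist OR ((List.range (D.N2 + 1)).map fun a => GD D D.k2 z a) L2) = LLD D y z := by
  simp only [List.range_eq_range']
  rw [plist_range, plist_range, hl1, hl2]
  have e1 : (fun s => ∑ i ∈ range (D.N1 + 1), ((L1.getD (s + i) 0 : ℤ) : ℝ) * GD D D.k1 z i) = P1D D z := by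
    funext s
    unfold P1D
    refine Finset.sum_congr rfl fun i _ => ?_
    rw [hQ1, mul_comm]
  have e2 : (fun s => ∑ i ∈ range (D.N2 + 1), ((L2.getD (s + i) 0 : ℤ) : ℝ) * GD D D.k2 z i) = P2D D z := by
    funext s
    unfold P2D
    refine Finset.sum_congr rfl fun i _ => ?_
    rw [hQ2, mul_comm]
  rw [e1, e2]
  have z1 : ∀ i, D.N1 + 1 ≤ i → P1D D z i = 0 := by
    intro i hi
    unfold P1D
    refine Finset.sum_eq_zero fun m _ => ?_
    rw [hQ1, List.getD_eq_getElem?_getD, List.getElem?_eq_none (by omega)]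
    simp
  have z2 : ∀ i, D.N2 + 1 ≤ i → P2D D z i = 0 := by
    intro i hi
    unfold P2D
    refine Finset.sum_eq_zero fun m _ => ?_
    rw [hQ2, List.getD_eq_getElem?_getD, List.getElem?_eq_none (by omega)]
    simp
  have h := all_range (D.N1 + 1) (D.N2 + 1) (fun a => GD D (fun i => D.k1 i * D.k1 i) y a)
    (fun a => GD D (fun i => D.k2 i * D.k2 i) y a) (fun a => GD D (fun i => D.k1 i * D.k2 i) y a) (P1D D z) (P2D D z)
    z1 z2 (D.N2 + 1) 0
  rw [Nat.sub_zero, Nat.sub_zero] at h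
  rw [h]
  have e4 : LLD D y z = ∑ b ∈ range (D.N2 + 1), ∑ c ∈ range (D.N2 + 1), ∑ a ∈ range (D.N1 + 1), ∑ d ∈ range (D.N2 + 1),
      GD D (fun i => D.k1 i * D.k1 i) y a * GD D (fun i => D.k1 i * D.k2 i) y b * GD D (fun i => D.k1 i * D.k2 i) y c *
        GD D (fun i => D.k2 i * D.k2 i) y d *
          (P1D D z (a + b) * P1D D z (a + c) * P2D D z (c + d) * P2D D z (b + d)) := by
    unfold LLD
    rw [Finset.sum_comm]
    refine Finset.sum_congr rfl fun b _ => ?_
    rw [Finset.sum_comm]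
  rw [e4]
  unfold TT
  simp only [zero_add]
  refine Finset.sum_congr rfl fun b _ => ?_
  refine Finset.sum_congr rfl fun c _ => ?_
  rw [Finset.sum_mul_sum, Finset.mul_sum, Finset.mul_sum]
  refine Finset.sum_congr rfl fun a _ => ?_
  rw [Finset.mul_sum, Finset.mul_sum]
  refine Finset.sum_congr rfl fun d _ => ?_
  rw [add_comm a b, add_comm a c, add_comm b d, add_comm c d]
  ring

end Pool.Agent.Helper34.HV
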